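import Mathlib

/-!
# Project SC (MP_945175_al): 2-colourings of solvable permutation groups

Every solvable permutation group has a 2-colouring whose stabiliser is abelian-by-2-group.

Overview. A finite group is abelian-by-2-group iff its elements of odd order commute with each other.
Call a 2-colouring *good* if the elements of odd order which preserve it commute. Let `G` be transitive and
`B` a block on which its stabiliser `M` acts primitively; this action is affine. By the lemmas below it has
three inequivalent good colourings. By `Q6.ThreeCol.main` the action of `G` on the blocks has a 3-colouring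
with stabiliser a 2-group. Colour the block number `s` by (a copy of) the good colouring with the number of
the colour of `s`. The elements of odd order preserving this colouring fix all the blocks, and commute on
each of them.

Each step `S_x : Prop` has a docstring with its proof.
-/

set_option autoImplicit false

namespace Pool.Agent.Q157.SC

open Equiv

/-- Affine map. -/
def Aff {V W : Type} [AddCommGroup V] [AddCommGroup W] (f : V → W) : Prop :=
  ∀ x y z, f (x - y + z) = f x - f y + f z

/-- `W` is closed under `x - y + z`. -/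
def Closed {V : Type} [AddCommGroup V] (W : Set V) : Prop :=
  ∀ x ∈ W, ∀ y ∈ W, ∀ z ∈ W, x - y + z ∈ W

/-- `g` has odd order. -/
def OP {G : Type} [Monoid G] (g : G) : Prop := ∃ m : ℕ, Odd m ∧ g ^ m = 1

/-- The only affine permutation of odd order preserving `c` is the identity. -/
def Rig {V : Type} [AddCommGroup V] (c : V → Bool) : Prop :=
  ∀ f : Perm V, Aff f → OP f → (∀ x, c (f x) = c x) → f = 1

/-- The affine permutations of odd order preserving `c` commute. -/
def Goo {V : Type} [AddCommGroup V] (c : V → Bool) : Prop :=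
  ∀ f g : Perm V, Aff f → Aff g → OP f → OP g → (∀ x, c (f x) = c x) → (∀ x, c (g x) = c x) →
    f * g = g * f

/-- The class `c = true` spans, even without any one of its points. -/
def Spn {V : Type} [AddCommGroup V] (c : V → Bool) : Prop :=
  ∀ (x₀ : V) (W : Set V), Closed W → (∀ y, c y = true → y ≠ x₀ → y ∈ W) → ∀ v, v ∈ W

/-- The size of the class `c = true`. -/
noncomputable def tr {V : Type} (c : V → Bool) : ℕ := Nat.card {x : V // c x = true}

/-- Three good colourings of different sizes. -/
def Three (V : Type) [AddCommGroup V] : Prop :=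
  ∃ c : Fin 3 → V → Bool, (∀ i, Goo (c i)) ∧ ∀ i j, tr (c i) = tr (c j) → i = j

/-- Two strongly spanning rigid colourings of different sizes. -/
def Two (V : Type) [AddCommGroup V] : Prop :=
  ∃ c c' : V → Bool, Rig c ∧ Spn c ∧ Rig c' ∧ Spn c' ∧ tr c ≠ tr c'

/-- A strongly spanning rigid colouring, with at least two points with `c = false`. -/
def One (V : Type) [AddCommGroup V] : Prop :=
  ∃ c : V → Bool, Rig c ∧ Spn c ∧ ∃ a b, a ≠ b ∧ c a = false ∧ c b = false

/-- The extension of the colouring `c` of `V` to `V × ZMod p`: the point `(0, 1)` and the points `(v, 0)` with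
`c v = true` get the colour `false`, the others `true`. -/
def ex {V : Type} [AddCommGroup V] [DecidableEq V] (p : ℕ) (c : V → Bool) : V × ZMod p → Bool :=
  fun x => if x.2 = 0 then !c x.1 else !decide (x = (0, 1))

/-- The points `(v, 0)` with `c v = true` get the colour `false`, the others `true`. -/
def pl {V : Type} [AddCommGroup V] (p : ℕ) (c : V → Bool) : V × ZMod p → Bool :=
  fun x => if x.2 = 0 then !c x.1 else true

/-! ### Generalities -/

/-- (a) If `f ∘ f` maps `A` to `A` so does `f` (`f = f ^ (m + 1)` with `m + 1` even). (b) Two permutations of odd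
order of a set with at most three elements commute: their signs are `1` (odd power of the sign), and the even
permutations of at most three points commute (transport to `Fin n`, `n ≤ 3`, `decide`). -/
def S_gen : Prop :=
  (∀ (V : Type) (f : Perm V) (A : Set V), OP f → (∀ x ∈ A, f (f x) ∈ A) → ∀ x ∈ A, f x ∈ A) ∧
  (∀ (V : Type) [Finite V] (f g : Perm V), Nat.card V ≤ 3 → OP f → OP g → f * g = g * f)

/-- (a) Affine maps which agree on a set `S` such that every closed set containing `S` is everything, are equal
(the set where they agree is closed). (b) If the class `c = true` has at most three elements and every closed set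
containing it is everything, `c` is good: restrict `f, g` to the class (`Equiv.Perm.subtypePerm`), use `S_gen` (b)
and (a). (c) If both classes have at most three elements, `c` is good: restrict to both classes. (d) `Goo` and
`Rig` for the complementary colouring; `Rig c → Goo c`. (e) Invariance under additive isomorphisms. (f) Sizes of
complements. -/
def S_bas : Prop :=
  (∀ (V W : Type) [AddCommGroup V] [AddCommGroup W] (f g : V → W) (S : Set V), Aff f → Aff g →
    (∀ U : Set V, Closed U → S ⊆ U → ∀ v, v ∈ U) → (∀ x ∈ S, f x = g x) → f = g) ∧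
  (∀ (V : Type) [AddCommGroup V] [Finite V] (c : V → Bool), tr c ≤ 3 →
    (∀ U : Set V, Closed U → (∀ x, c x = true → x ∈ U) → ∀ v, v ∈ U) → Goo c) ∧
  (∀ (V : Type) [AddCommGroup V] [Finite V] (c : V → Bool), tr c ≤ 3 → tr (fun x => !c x) ≤ 3 → Goo c) ∧
  (∀ (V : Type) [AddCommGroup V] (c : V → Bool), (Goo c → Goo (fun x => !c x)) ∧
    (Rig c → Rig (fun x => !c x)) ∧ (Rig c → Goo c)) ∧
  (∀ (V W : Type) [AddCommGroup V] [AddCommGroup W], (V ≃+ W) → (Three V → Three W) ∧ (Two V → Two W) ∧
    (One V → One W)) ∧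
  (∀ (V : Type) [Finite V] (c : V → Bool), tr c + tr (fun x => !c x) = Nat.card V)

/-! ### The extension step -/

/-- Let `f` be an affine permutation of `V × ZMod p` preserving `ex p c`, `Spn c`. Then `f (0,1) = (0,1)`
and `f` preserves `V × 0`: there is a permutation `g` of `V`, affine, preserving `c`, with `f (v, 0) = (g v, 0)`.
Proof. `f` permutes the class `F = {(v,0) : c v} ∪ {(0,1)}`. If `f (0,1) ≠ (0,1)` then `f (0,1) = (x,0)`, `c x`. Let
`W = f '' (V × 0)`; it is closed and contains all points of `F` but `(x,0)`: each point of `F` is `f q` with `q ∈ F`,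
and `q = (0,1)` only for `(x,0)`. By `Spn c` (for `{v | (v,0) ∈ W}`, `x₀ = x`) it contains `V × 0`, and it contains
`(0,1)`, so it is everything ((v,s) is obtained from (v,0) by adding (0,1) - (0,0) s times). But `W` is not
everything as `(x,0) = f (0,1) ∉ W`. So `f (0,1) = (0,1)`, and then `f` maps `{(v,0) : c v}` to itself, so the closed
set `{v | (f (v,0)).2 = 0}` contains all `v` with `c v`, so it is everything. -/
def S_fix : Prop :=
  ∀ (p : ℕ) [Fact p.Prime] (V : Type) [AddCommGroup V] [Finite V] [DecidableEq V] (c : V → Bool), Spn c →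
    ∀ f : Perm (V × ZMod p), Aff f → (∀ x, ex p c (f x) = ex p c x) →
      f (0, 1) = (0, 1) ∧ ∃ g : Perm V, Aff g ∧ (∀ v, c (g v) = c v) ∧ ∀ v, f (v, 0) = (g v, 0)

/-- `ex p c` is rigid: `S_fix`; `g` has odd order (`f ^ m = 1` gives `g ^ m = 1`), so `g = 1`, and `f` fixes
`V × 0` and `(0,1)`, so `f = 1` (induction on `s` as in `S_fix`). -/
def S_rig : Prop :=
  ∀ (p : ℕ) [Fact p.Prime] (V : Type) [AddCommGroup V] [Finite V] [DecidableEq V] (c : V → Bool),
    Rig c → Spn c → Rig (ex p c)

/-- For `p = 2`, `pl 2 c` is rigid: `f` maps `{(v,0) : c v}` to itself so (closed set argument) it preserves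
`V × 0`, the induced `g` is affine of odd order and preserves `c`, so `g = 1`; then for `x = (v,1)`,
`f x - x = (w, 0)` does not depend on `v` and `f (f x) = x`; so `f ∘ f = 1` and `f = 1` as the order is odd. -/
def S_plr : Prop :=
  ∀ (V : Type) [AddCommGroup V] [Finite V] (c : V → Bool), Rig c → Spn c → Rig (pl 2 c)

/-- `ex p c` is strongly spanning for `p ≥ 3`, `|V| ≥ 3` (here `x₀ ∈ V × ZMod p`, `W` closed containing all `y`
with `ex p c y = true`, `y ≠ x₀`). First `(v,0) = (v+u,1) - (u+w,2) + (w,1)` (and `2 ≠ 0`, `1 - 2 + 1 = 0` in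
`ZMod p`): choose `u, w` so that none of the three points is `(0,1)` or `x₀`: if `x₀.2 ≠ 2` choose
`u ∉ {-v, x₀.1 - v}`, `w ∉ {0, x₀.1}`; if `x₀.2 = 2`, choose `w ≠ 0` and then `u ∉ {-v, x₀.1 - w}`. Then for `s ≠ 0`,
`(v,s) = (v+u,s) - (u,0) + (0,0)` with `(v+u,s)` different from `(0,1)` and `x₀`. -/
def S_sp3 : Prop :=
  ∀ (p : ℕ) [Fact p.Prime] (V : Type) [AddCommGroup V] [Finite V] [DecidableEq V] (c : V → Bool),
    3 ≤ p → 3 ≤ Nat.card V → Spn (ex p c)

/-- `ex 2 c` is strongly spanning if `2 v = 0` in `V`, `|V| ≥ 4` (so `|V| ≥ 4`; at least 8 if you like: you may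
use the hypothesis `8 ≤ Nat.card V`) and at least two points have `c = false`. Proof. There is
`(b,0) ≠ x₀` with `c b = false`, so `(b,0) ∈ W`. All but at most two of the points `(v,1)` are in `W` (not `(0,1)`,
`x₀`). For every `v`, `(v,0) = (v + b + u, 1) - (u,1) + (b,0)` (signs do not matter) for a suitable `u`
(`u ∉ {0, x₀.1, v+b, v+b+x₀.1}`); then `(v,1) = (v+u,1) - (u,0) + (0,0)` for a suitable `u`. -/
def S_sp2 : Prop :=
  ∀ (V : Type) [AddCommGroup V] [Finite V] [DecidableEq V] (c : V → Bool), (∀ v : V, v + v = 0) →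
    8 ≤ Nat.card V → (∃ a b, a ≠ b ∧ c a = false ∧ c b = false) → Spn (ex 2 c)

/-- Sizes. -/
def S_siz : Prop :=
  (∀ (p : ℕ) [Fact p.Prime] (V : Type) [AddCommGroup V] [Finite V] [DecidableEq V] (c : V → Bool),
    tr (ex p c) + tr c + 1 = Nat.card V * p) ∧
  (∀ (V : Type) [AddCommGroup V] [Finite V] (c : V → Bool), tr (pl 2 c) + tr c = Nat.card V * 2)

/-- `p ≥ 3`, `n = |V| ≥ 3`. From `c, c'` of `Two V` get `ex p c, ex p c'` (`S_rig`, `S_sp3`, `S_siz`), and the third
colouring of `Three (V × ZMod p)` is the complement of `ex p c`. Sizes: `pn - 1 - t`, `pn - 1 - t'`, `1 + t` where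
`t = tr c`, `t' = tr c'`, `t ≠ t'`, `t, t' ≤ n`; they are different: `pn - 1 - t = 1 + t` is impossible as
`2 t + 2 ≤ 2n + 2`, `pn` is odd (if `p` is odd; `Nat.card V` odd is a hypothesis) and `pn - 1 - t' = 1 + t` would give
`t + t' = pn - 2 ≥ 3n - 2 > 2n - 1 ≥ t + t'`. -/
def S_ind3 : Prop :=
  ∀ (p : ℕ) [Fact p.Prime] (V : Type) [AddCommGroup V] [Finite V], 3 ≤ p → 3 ≤ Nat.card V →
    Odd (Nat.card V) → Two V → Two (V × ZMod p) ∧ Three (V × ZMod p)

/-- `p = 2`, `n = |V| ≥ 8`, `c` from `One V`, `t = tr c`, `f = n - t ≥ 2`. `ex 2 c` shows `One (V × ZMod 2)`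
(`S_rig`, `S_sp2`; `false` at `(0,1)` and at a point `(v,0)`, `c v = true`). `Three`: `ex 2 c`, its complement and
`pl 2 c` (`S_plr`); sizes `n - 1 + f`, `n + 1 - f`, `n + f`. (`t ≥ 1`: `Spn c` and `|V| > 1`.) -/
def S_ind2 : Prop :=
  ∀ (V : Type) [AddCommGroup V] [Finite V], (∀ v : V, v + v = 0) → 8 ≤ Nat.card V →
    One V → One (V × ZMod 2) ∧ Three (V × ZMod 2)

/-! ### The base cases -/

/-- `p ≥ 5`. `Three`: the classes `{0}` (good: the maps are `x ↦ b x`), `{0,1}` (`S_bas` (b)), the complement of `{0}`;
sizes `1, 2, p - 1`. `Two`: the complement of `{0,1}` (if `f` preserves it, it preserves `{0,1}` and fixes `0` and `1` as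
it has odd order (`S_gen` (a)), so `f = 1`), of size `p - 2`; strongly spanning: at least `p - 3 ≥ 2` points remain
and two different points `x, y` span (`x + k (y - x)`, `k : ℕ`). If `p = 5` the second colouring is the complement of
`{0}`, size `4` (an affine map fixing `0` is `x ↦ b x`, its order divides `4`). If `p ≥ 7` the second has the class
`true` equal to `{0, 1, -1}`, of size `3 ≠ p - 2`; it is rigid: `f x = a + b x`, `b ≠ 0`, `a ∈ {0,1,-1}`; `a = 0`:
`b = 1` or `b = -1`, where `f ∘ f = 1`. `a = 1`: `f 1 = 1 + b ∈ {0,-1}`; `b = -1`: `f ∘ f = 1`, so `f = 1` as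
the order is odd, contradiction; `b = -2`: `f (-1) = 3` is not in `{0,1,-1}`. `a = -1` is similar (or: conjugate by `x ↦ -x`). -/
def S_b5 : Prop := ∀ (p : ℕ) [Fact p.Prime], 5 ≤ p → Three (ZMod p) ∧ Two (ZMod p)

/-- `p = 3`. `Three (ZMod 3)`: the classes `∅`, `{0}`, `{0,1}` (two permutations of odd order of three points
commute, `S_gen` (b)). `V = ZMod 3 × ZMod 3`: let `c = true` iff both coordinates are not zero (4 points), `c'` its
complement (5 points, the two axes). Rigid: let `f` have odd order and preserve `c`. The number of the pairs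
`(y, z)` of points of the axes with `x - y + z` on the axes is preserved by `f` (for `x` on the axes), and it is larger
for `x = 0` than for the other `x` (`decide`), so `f 0 = 0` and `f` is additive. So `f` maps `{±e₁}` to itself or to
`{±e₂}` and conversely, by `S_gen` (a) to itself, and again by `S_gen` (a) `f e₁ = e₁`; similarly `e₂`. So `f = 1`.
`Three V`: `c`, `c'` and the class `{(0,0),(1,0),(0,1)}` (`S_bas` (b)); sizes `4, 5, 3`. `Spn` for `c` and `c'`: by hand or
by `decide`. -/
def S_b3 : Prop := Three (ZMod 3) ∧ Three (ZMod 3 × ZMod 3) ∧ Two (ZMod 3 × ZMod 3)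

/-- `p = 2`, small dimension: `Three (ZMod 2)`: classes of sizes `0, 1, 2`. `Three (ZMod 2 × ZMod 2)`: classes of
sizes `1, 2, 3`. All by `S_bas` (c). -/
def S_b2 : Prop := Three (ZMod 2) ∧ Three (ZMod 2 × ZMod 2)

/-- The vector space with 16 elements. -/
abbrev V4 : Type := (ZMod 2 × ZMod 2) × (ZMod 2 × ZMod 2)

/-- The class with 7 elements, the union of two planes meeting in `0`. -/
def c7 : V4 → Bool := fun x => decide (x.1 = 0 ∨ x.2 = 0)

/-- `c7` is good. Let `f` be affine of odd order preserving `S = {c7 = true}`. The number of the pairs `(y, z)` of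
points of `S` with `x + y + z ∈ S` (`x ∈ S`) is preserved by `f`; it is `31` for `x = 0` and `25` for the others
(`decide`), so `f 0 = 0` and `f` is additive. For `x ≠ 0` in the first plane `P` and `y ∈ S`, `x + y ∈ S` iff `y ∈ P`; so
`f` maps `P` to `P` or to the second plane `P'` and `P'` to the other one, and by `S_gen` (a) it maps `P` to `P` and `P'`
to `P'`. Two such maps commute on `P ∖ 0` and on `P' ∖ 0` (three points each, `S_gen` (b)), so on `S`, so everywhere
(`S_bas` (a)). Any other proof (e.g. by kernel computation) is welcome. Size 7. -/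
def S_c7 : Prop := Goo c7 ∧ tr c7 = 7

/-- The class with 8 elements: `0, a, b, a+b` (the vectors `x` with `x.2 = 0`), `c, c+b, d, d+a`, where
`a = ((1,0),0)`, `b = ((0,1),0)`, `c = (0,(1,0))`, `d = (0,(0,1))`. -/
def c8 : V4 → Bool := fun x => decide (x.2 = 0 ∨ (x.2 = (1, 0) ∧ x.1.1 = 0) ∨ (x.2 = (0, 1) ∧ x.1.2 = 0))

/-- `c8` is rigid and strongly spanning and has at least two points with `c8 = false`. Let `f` be affine of odd order
preserving `S = {c8 = true}`. The number of the pairs `(y,z)` of points of `S` with `x + y + z ∈ S` (`x ∈ S`) is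
preserved by `f`; it has one value on `{0,a,b,a+b}` and a different one on `Q = {c, c+b, d, d+a}` (`decide`), so `f`
preserves `Q`. For `x ≠ y ∈ Q` the number of the pairs `(u,v)` of points of `S` with `x + y + u + v = 0` is `6` if
`{x,y} = {c,c+b}` or `{d,d+a}` and `2` otherwise. So `f` permutes the two pairs, so (`S_gen` (a)) it preserves each of
them, so again by `S_gen` (a) it fixes `c, c+b, d, d+a`. So the linear part of `f` fixes `a` and `b`; and
`f 0 ∈ {0,a,b,a+b}`, so `f (f 0) = f (0 + f 0) = 0`, so `f 0 = 0` by `S_gen` (a). So `f = 1`. `Spn`: by hand, or by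
`decide` for each `x₀`. Size 8. Any other proof (e.g. by kernel computation) is welcome. -/
def S_c8 : Prop := Rig c8 ∧ Spn c8 ∧ tr c8 = 8

/-- `Three V4`: `c7`, its complement, `c8` (sizes `7, 9, 8`); `One V4`: `c8`. -/
def S_b4 : Prop := Three V4 ∧ One V4

/-- All the vector spaces over `ZMod p` of dimension `d ≥ 1` but `(ZMod 2)³`. Induction on `d` with `S_ind3`
(start: `ZMod p` for `p ≥ 5`, `ZMod 3 × ZMod 3` for `p = 3`) and `S_ind2` (start: `V4`), `S_bas` (e) and
`(Fin (d+1) → ZMod p) ≃+ (Fin d → ZMod p) × ZMod p` (or `LinearEquiv.ofFinrankEq`). -/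
def S_aff : Prop :=
  ∀ (p d : ℕ) [Fact p.Prime], 1 ≤ d → ¬ (p = 2 ∧ d = 3) → Three (Fin d → ZMod p)

/-! ### Primitive solvable groups -/

/-- A primitive solvable permutation group is affine. Let `N` be the nontrivial abelian normal subgroup of exponent
`p` of `Q6.ThreeCol.exists_normal` (file `Pool/Agent/Q6/ThreeCol/Step.lean`; import it). `N` is transitive (a nontrivial
normal subgroup of a primitive group: `IsQuasiPreprimitive`), and regular as it is abelian: if `n x₀ = x₀` then
`n (m x₀) = m (n x₀) = m x₀`. So `n ↦ n x₀` is a bijection `N ≃ S`, and `Additive N ≃+ (Fin d → ZMod p)`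
(`Q6.ThreeCol.exists_model`). For `g ∈ G` with `g x₀ = m x₀`, `g (n x₀) = (g n g⁻¹ m) x₀`, an affine map. (Or use
`Q6.ThreeCol.exists_phi`.) `d ≥ 1` as `S` is nontrivial. -/
def S_prim : Prop :=
  ∀ (S : Type) [Finite S] [Nontrivial S] (G : Subgroup (Perm S)), Group.IsSolvable G →
    MulAction.IsPreprimitive G S →
    ∃ (p d : ℕ) (_ : Fact p.Prime) (e : S ≃ (Fin d → ZMod p)), 1 ≤ d ∧
      ∀ g ∈ G, Aff (fun v => e (g (e.symm v)))

/-- Degree 8. Let `N` be as in `S_prim`: regular, normal in `G`, abelian, of order 8, so `p = 2`. Let `a` be a point,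
`H` its stabiliser in `G` (it acts on `N` by conjugation, `h (n a) = (h n h⁻¹) a`, faithfully; `G = N H`). If `H = 1`
there is nothing to prove. Let `H ≠ 1`; it is solvable, so it has a normal subgroup `K ≠ 1` (normal in `H`), abelian of
prime exponent `r` (`Q6.ThreeCol.exists_normal` for `H`). The subgroup `W = {n ∈ N : n commutes with all k ∈ K}` is
normalised by `H` (as `K` is) and by `N`, so it is normal in `G`; if `W ≠ 1` it is transitive (primitivity), so `W = N`
(`N` is regular) and `K` acts trivially on `N`, so `K = 1`, contradiction. So `W = 1` and by the class equation of the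
`r`-group `K` on `N` (`IsPGroup.card_modEq_card_fixedPoints`) `8 ≡ 1 mod r`, so `r = 7`. Take `k ∈ K`, `k ≠ 1`; it
has order 7 and its number of fixed points on `N` is `≡ 8 ≡ 1 mod 7` and is not 8, so it is 1. So the powers of `k` act
transitively and freely on `N ∖ 1`; `K` is abelian and acts faithfully and transitively on `N ∖ 1`, so regularly, and
`K` is generated by `k`. Let `h ∈ H`; `h k h⁻¹ = k^j`. Fix `v ∈ N ∖ 1` with `h v h⁻¹ = v`; then
`h (k^i v k^-i) h⁻¹ = k^(ji) v k^(-ji)`. If `h` fixes also `k^i v k^-i ≠ v` then `k^((j-1)i)` centralises `v`, so it is `1`,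
`j ≡ 1 mod 7`, `h` centralises `N` and `h = 1`. This is (a) (take `a` as the first of the three points). (b): if `h, h'`
both fix `v` then `h h'` and `h' h` both map `k^i v k^-i` to `k^(jj'i) v k^(-jj'i)`, so they are equal. -/
def S_eight : Prop :=
  ∀ (S : Type) [Finite S] (G : Subgroup (Perm S)), Group.IsSolvable G → MulAction.IsPreprimitive G S →
    Nat.card S = 8 →
    (∀ g ∈ G, ∀ a b c : S, a ≠ b → a ≠ c → b ≠ c → g a = a → g b = b → g c = c → g = 1) ∧
    (∀ g ∈ G, ∀ h ∈ G, ∀ a b : S, a ≠ b → g a = a → g b = b → h a = a → h b = b → g * h = h * g)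

/-- Three inequivalent good colourings for every primitive solvable group of degree at least 2. By `S_prim` and
`S_aff` (transport by `e`; `c i (g x) = c j x` for all `x` gives `tr (c i) = tr (c j)`) unless the degree is 8. In degree 8
take three different points `x, y, z`, `c 0 = {x,y,z}`, `c 1` its complement, `c 2 = {x,y}` (sizes `3, 5, 2`). If `g, h ∈ G`
have odd order and preserve `{x,y,z}` they commute on it (`S_gen` (b)) so `g h g⁻¹ h⁻¹` fixes three points and is `1`.
If they preserve `{x,y}` they fix `x` and `y` (`S_gen` (a)) and commute. -/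
def S_R1 : Prop :=
  ∀ (S : Type) [Finite S] [Nontrivial S] (G : Subgroup (Perm S)), Group.IsSolvable G →
    MulAction.IsPreprimitive G S →
    ∃ c : Fin 3 → S → Bool, (∀ i j, ∀ g ∈ G, (∀ x, c i (g x) = c j x) → i = j) ∧
      ∀ i, ∀ g ∈ G, ∀ h ∈ G, OP g → OP h → (∀ x, c i (g x) = c i x) → (∀ x, c i (h x) = c i x) →
        g * h = h * g

/-- The theorem. -/
def S_main : Prop :=
  ∀ (Ω : Type) [Finite Ω] (G : Subgroup (Perm Ω)), Group.IsSolvable G →
    ∃ c : Ω → Bool, ∀ g ∈ G, ∀ h ∈ G, OP g → OP h → (∀ x, c (g x) = c x) → (∀ x, c (h x) = c x) →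
      g * h = h * g

end Pool.Agent.Q157.SC
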