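import Mathlib
import Pool.Agent.Q157.SC.Stm

/-!
# Project SC: the extension step
-/

set_option autoImplicit false

namespace Pool.Agent.Q157.SC

open Equiv

theorem eq_one_of_sq {G : Type} [Group G] {g : G} (h : OP g) (hk : g ^ 2 = 1) : g = 1 := by
  obtain ⟨m, ⟨k, hm⟩, hgm⟩ := h
  rw [hm, pow_succ, pow_mul, hk, one_pow, one_mul] at hgm
  exact hgm

theorem Aff.symm {V : Type} [AddCommGroup V] {f : Perm V} (hf : Aff f) : Aff f.symm := by
  intro x y z
  apply f.injective
  rw [f.apply_symm_apply, hf, f.apply_symm_apply, f.apply_symm_apply, f.apply_symm_apply]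

theorem closed_prod {V : Type} [AddCommGroup V] {p : ℕ} [Fact p.Prime] (U : Set (V × ZMod p))
    (hU : Closed U) (h0 : ∀ v, (v, 0) ∈ U) (h1 : (0, 1) ∈ U) : ∀ q, q ∈ U := by
  have key : ∀ (s : ℕ) (v : V), (v, (s : ZMod p)) ∈ U := by
    intro s
    induction s with
    | zero => intro v; simpa using h0 v
    | succ s ih =>
      intro v
      have := hU _ (ih v) _ (h0 0) _ h1
      simpa using this
  rintro ⟨v, z⟩
  have h2 := key z.val v
  rwa [ZMod.natCast_zmod_val] at h2

theorem ex_false {V : Type} [AddCommGroup V] [DecidableEq V] {p : ℕ} [Fact p.Prime] (c : V → Bool)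
    (q : V × ZMod p) : ex p c q = false ↔ (q.2 = 0 ∧ c q.1 = true) ∨ q = (0, 1) := by
  unfold ex
  split_ifs with h
  · constructor
    · intro h1
      left
      exact ⟨h, by simpa using h1⟩
    · rintro (h1 | h1)
      · simp [h1.2]
      · exfalso
        rw [h1] at h
        exact one_ne_zero h
  · constructor
    · intro h1
      right
      simpa using h1
    · rintro (h1 | h1)
      · exact absurd h1.1 h
      · simp [h1]

/-- The induced permutation of `V`. -/
theorem induced {V : Type} [AddCommGroup V] [Finite V] {p : ℕ} (f : Perm (V × ZMod p))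
    (hf : Aff f) (h : ∀ v, (f (v, 0)).2 = 0) :
    ∃ g : Perm V, Aff g ∧ ∀ v, f (v, 0) = (g v, 0) := by
  have h1 : ∀ v, f (v, 0) = ((f (v, 0)).1, 0) := fun v => Prod.ext rfl (h v)
  have hinj : Function.Injective (fun v => (f (v, 0)).1) := by
    intro v w hvw
    have h2 : f (v, 0) = f (w, 0) := by
      rw [h1 v, h1 w]
      exact Prod.ext hvw rfl
    exact congrArg Prod.fst (f.injective h2)
  let g : Perm V := Equiv.ofBijective _ (Finite.injective_iff_bijective.1 hinj)
  refine ⟨g, ?_, h1⟩
  intro x y z
  show (f (x - y + z, 0)).1 = (f (x, 0)).1 - (f (y, 0)).1 + (f (z, 0)).1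
  have := hf (x, 0) (y, 0) (z, 0)
  have h3 : ((x, 0) - (y, 0) + (z, 0) : V × ZMod p) = (x - y + z, 0) := by simp
  rw [h3] at this
  rw [this]
  rfl

theorem fix : S_fix := by
  intro p _ V _ _ _ c hS f hf hfc
  have hfc' : ∀ x, ex p c (f.symm x) = ex p c x := by
    intro x
    rw [← hfc (f.symm x), f.apply_symm_apply]
  have hf' := hf.symm
  have hA : f (0, 1) = (0, 1) := by
    by_contra hne
    have h1 : ex p c (f (0, 1)) = false := by
      rw [hfc, ex_false]
      exact Or.inr rfl
    rw [ex_false] at h1
    rcases h1 with ⟨h1, h2⟩ | h1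
    swap
    · exact hne h1
    set x := (f (0, 1)).1 with hx
    have hfx : f (0, 1) = (x, 0) := Prod.ext rfl h1
    let U : Set (V × ZMod p) := {q | (f.symm q).2 = 0}
    have hU : Closed U := by
      intro a ha b hb d hd
      show (f.symm (a - b + d)).2 = 0
      rw [hf']
      have ha' : (f.symm a).2 = 0 := ha
      have hb' : (f.symm b).2 = 0 := hb
      have hd' : (f.symm d).2 = 0 := hd
      simp [ha', hb', hd']
    have hV : ∀ v, (v, (0 : ZMod p)) ∈ U := by
      apply hS x {v | (v, (0 : ZMod p)) ∈ U}
      · intro a ha b hb d hd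
        have := hU _ ha _ hb _ hd
        simpa using this
      · intro y hy hyx
        have h3 : ex p c (f.symm (y, 0)) = false := by
          rw [hfc', ex_false]
          exact Or.inl ⟨rfl, hy⟩
        rw [ex_false] at h3
        rcases h3 with h3 | h3
        · exact h3.1
        · exfalso
          rw [Equiv.symm_apply_eq, hfx] at h3
          exact hyx (congrArg Prod.fst h3)
    have h01 : ((0 : V), (1 : ZMod p)) ∈ U := by
      have h3 : ex p c (f.symm (0, 1)) = false := by
        rw [hfc', ex_false]
        exact Or.inr rfl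
      rw [ex_false] at h3
      rcases h3 with h3 | h3
      · exact h3.1
      · exfalso
        rw [Equiv.symm_apply_eq] at h3
        exact hne h3.symm
    have h4 : (f.symm (x, 0)).2 = 0 := closed_prod U hU hV h01 (x, 0)
    rw [← hfx, f.symm_apply_apply] at h4
    exact one_ne_zero h4
  refine ⟨hA, ?_⟩
  have hB : ∀ v, (f (v, 0)).2 = 0 := by
    apply hS 0 {v | (f (v, 0)).2 = 0}
    · intro a ha b hb d hd
      have ha' : (f (a, 0)).2 = 0 := ha
      have hb' : (f (b, 0)).2 = 0 := hb
      have hd' : (f (d, 0)).2 = 0 := hd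
      show (f (a - b + d, 0)).2 = 0
      have h3 : ((a - b + d, 0) : V × ZMod p) = (a, 0) - (b, 0) + (d, 0) := by simp
      rw [h3, hf]
      simp [ha', hb', hd']
    · intro y hy _
      have h3 : ex p c (f (y, 0)) = false := by
        rw [hfc, ex_false]
        exact Or.inl ⟨rfl, hy⟩
      rw [ex_false] at h3
      rcases h3 with h3 | h3
      · exact h3.1
      · exfalso
        rw [← hA] at h3
        have := congrArg Prod.snd (f.injective h3)
        exact zero_ne_one this
  obtain ⟨g, hg1, hg2⟩ := induced f hf hB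
  refine ⟨g, hg1, ?_, hg2⟩
  intro v
  have h1 := hfc (v, 0)
  rw [hg2] at h1
  have h2 : ∀ w, ex p c (w, 0) = !c w := by
    intro w
    unfold ex
    rw [if_pos rfl]
  rw [h2, h2] at h1
  exact Bool.not_inj h1

theorem induced_OP {V : Type} [AddCommGroup V] {p : ℕ} (f : Perm (V × ZMod p)) (g : Perm V)
    (h : ∀ v, f (v, 0) = (g v, 0)) (hf : OP f) : OP g := by
  obtain ⟨m, hm, hfm⟩ := hf
  refine ⟨m, hm, ?_⟩
  have key : ∀ (k : ℕ) (v : V), (f ^ k) (v, 0) = ((g ^ k) v, 0) := by
    intro k
    induction k with
    | zero => intro v; rfl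
    | succ k ih =>
      intro v
      rw [pow_succ, Perm.mul_apply, h, ih, pow_succ, Perm.mul_apply]
  apply Equiv.ext
  intro v
  have h1 := key m v
  rw [hfm] at h1
  exact (congrArg Prod.fst h1).symm

theorem eq_one_of_fix {V : Type} [AddCommGroup V] {p : ℕ} [Fact p.Prime] (f : Perm (V × ZMod p))
    (hf : Aff f) (h0 : ∀ v, f (v, 0) = (v, 0)) (h1 : f (0, 1) = (0, 1)) : f = 1 := by
  apply Equiv.ext
  apply closed_prod {q | f q = q}
  · intro a ha b hb d hd
    have ha' : f a = a := ha
    have hb' : f b = b := hb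
    have hd' : f d = d := hd
    show f (a - b + d) = a - b + d
    rw [hf, ha', hb', hd']
  · exact h0
  · exact h1

theorem rig (h1 : S_fix) : S_rig := by
  intro p _ V _ _ _ c hR hS f hf hO hfc
  obtain ⟨hA, g, hg, hgc, hfg⟩ := h1 p V c hS f hf hfc
  have hg1 : g = 1 := hR g hg (induced_OP f g hfg hO) hgc
  apply eq_one_of_fix f hf
  · intro v
    rw [hfg, hg1]
    rfl
  · exact hA

theorem plr : S_plr := by
  intro V _ _ c hR hS f hf hO hfc
  have hpl : ∀ q, pl 2 c q = false ↔ q.2 = 0 ∧ c q.1 = true := by
    intro q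
    unfold pl
    split_ifs with h
    · simp [h]
    · simp [h]
  have hB : ∀ v, (f (v, 0)).2 = 0 := by
    apply hS 0 {v | (f (v, 0)).2 = 0}
    · intro a ha b hb d hd
      have ha' : (f (a, 0)).2 = 0 := ha
      have hb' : (f (b, 0)).2 = 0 := hb
      have hd' : (f (d, 0)).2 = 0 := hd
      show (f (a - b + d, 0)).2 = 0
      have h3 : ((a - b + d, 0) : V × ZMod 2) = (a, 0) - (b, 0) + (d, 0) := by simp
      rw [h3, hf]
      simp [ha', hb', hd']
    · intro y hy _
      have h3 : pl 2 c (f (y, 0)) = false := by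
        rw [hfc, hpl]
        exact ⟨rfl, hy⟩
      rw [hpl] at h3
      exact h3.1
  obtain ⟨g, hg, hfg⟩ := induced f hf hB
  have hgc : ∀ v, c (g v) = c v := by
    intro v
    have h1 := hfc (v, 0)
    rw [hfg] at h1
    have h2 : ∀ w, pl 2 c (w, 0) = !c w := by
      intro w
      unfold pl
      rw [if_pos rfl]
    rw [h2, h2] at h1
    exact Bool.not_inj h1
  have hg1 : g = 1 := hR g hg (induced_OP f g hfg hO) hgc
  have h0 : ∀ v, f (v, 0) = (v, 0) := by
    intro v
    rw [hfg, hg1]
    rfl
  have ht : (f (0, 1)).2 ≠ 0 := by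
    intro h
    have h2 : f (0, 1) = f ((f (0, 1)).1, 0) := by
      rw [h0]
      exact Prod.ext rfl h
    have h3 := congrArg Prod.snd (f.injective h2)
    exact one_ne_zero h3
  have ht1 : (f (0, 1)).2 = 1 := by
    have : ∀ t : ZMod 2, t ≠ 0 → t = 1 := by decide
    exact this _ ht
  set w := (f (0, 1)).1 with hw
  have hfw : f (0, 1) = (w, 1) := Prod.ext rfl ht1
  have hww : w + w = 0 := by
    have h2 := hf (0, 1) (0, 0) (0, 1)
    rw [h0, hfw] at h2
    have h3 : ((0, 1) - (0, 0) + (0, 1) : V × ZMod 2) = (0, 0) := by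
      refine Prod.ext (by simp) ?_
      show (1 : ZMod 2) - 0 + 1 = 0
      decide
    rw [h3, h0] at h2
    have h4 := congrArg Prod.fst h2
    simpa using h4.symm
  have hff : f (w, 1) = (0, 1) := by
    have h2 := hf (w, 0) (0, 0) (0, 1)
    have h3 : ((w, 0) - (0, 0) + (0, 1) : V × ZMod 2) = (w, 1) := by simp
    rw [h3, h0, h0, hfw] at h2
    rw [h2]
    refine Prod.ext ?_ ?_
    · simp [hww]
    · simp
  have hsq : f ^ 2 = 1 := by
    apply eq_one_of_fix (f ^ 2)
    · intro x y z
      rw [pow_two]
      show f (f (x - y + z)) = f (f x) - f (f y) + f (f z)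
      rw [hf, hf]
    · intro v
      rw [pow_two]
      show f (f (v, 0)) = (v, 0)
      rw [h0, h0]
    · rw [pow_two]
      show f (f (0, 1)) = (0, 1)
      rw [hfw, hff]
  exact eq_one_of_sq hO hsq

theorem siz : S_siz := by
  have hsum : ∀ (X : Type) [Finite X] (c : X → Bool),
      Nat.card {x // c x = true} + Nat.card {x // ¬ c x = true} = Nat.card X := by
    intro X _ c
    rw [← Nat.card_sum]
    exact Nat.card_congr (Equiv.sumCompl _)
  constructor
  · intro p _ V _ _ _ c
    have hnz : NeZero p := ⟨(Fact.out : p.Prime).ne_zero⟩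
    have h1 := hsum (V × ZMod p) (ex p c)
    have h2 : Nat.card {x // ¬ ex p c x = true} = Nat.card (Option {v // c v = true}) := by
      symm
      apply Nat.card_congr
      refine Equiv.ofBijective (fun o => match o with
        | none => ⟨(0, 1), by
            have := (ex_false (p := p) c (0, 1)).2 (Or.inr rfl)
            simp [this]⟩
        | some v => ⟨(v.1, 0), by
            have := (ex_false (p := p) c (v.1, 0)).2 (Or.inl ⟨rfl, v.2⟩)
            simp [this]⟩) ⟨?_, ?_⟩
      · intro o o' h
        rcases o with _ | v <;> rcases o' with _ | v'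
        · rfl
        · exfalso
          have := congrArg (fun z => z.1.2) h
          exact one_ne_zero this
        · exfalso
          have := congrArg (fun z => z.1.2) h
          exact zero_ne_one this
        · have := congrArg (fun z => z.1.1) h
          exact congrArg some (Subtype.ext this)
      · rintro ⟨q, hq⟩
        have hq' : ex p c q = false := by simpa using hq
        rw [ex_false] at hq'
        rcases hq' with ⟨h3, h4⟩ | h3
        · exact ⟨some ⟨q.1, h4⟩, Subtype.ext (Prod.ext rfl h3.symm)⟩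
        · exact ⟨none, Subtype.ext h3.symm⟩
    rw [h2, Finite.card_option, Nat.card_prod, Nat.card_zmod] at h1
    show Nat.card {x // ex p c x = true} + Nat.card {v // c v = true} + 1 = _
    omega
  · intro V _ _ c
    have h1 := hsum (V × ZMod 2) (pl 2 c)
    have h2 : Nat.card {x // ¬ pl 2 c x = true} = Nat.card {v // c v = true} := by
      symm
      apply Nat.card_congr
      refine Equiv.ofBijective (fun v => ⟨(v.1, 0), by simp [pl, v.2]⟩) ⟨?_, ?_⟩
      · intro v v' h
        have := congrArg (fun z => z.1.1) h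
        exact Subtype.ext this
      · rintro ⟨q, hq⟩
        by_cases h3 : q.2 = 0
        · have h4 : c q.1 = true := by simpa [pl, h3] using hq
          exact ⟨⟨q.1, h4⟩, Subtype.ext (Prod.ext rfl h3.symm)⟩
        · exfalso
          apply hq
          simp [pl, h3]
    rw [h2, Nat.card_prod, Nat.card_zmod] at h1
    exact h1

end Pool.Agent.Q157.SC
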