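import Mathlib
import Pool.Agent.Q157.SC.Stm
import Pool.Agent.Q157.SC.Fix

/-!
# Project SC: generalities
-/

set_option autoImplicit false

namespace Pool.Agent.Q157.SC

open Equiv

theorem aff_ext {V W : Type} [AddCommGroup V] [AddCommGroup W] (f g : V → W) (S : Set V) (hf : Aff f)
    (hg : Aff g) (hS : ∀ U : Set V, Closed U → S ⊆ U → ∀ v, v ∈ U) (h : ∀ x ∈ S, f x = g x) :
    f = g := by
  funext v
  refine hS {v | f v = g v} ?_ h v
  intro a ha b hb d hd
  have ha' : f a = g a := ha
  have hb' : f b = g b := hb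
  have hd' : f d = g d := hd
  show f (a - b + d) = g (a - b + d)
  rw [hf, hg, ha', hb', hd']

theorem Aff.mul {V : Type} [AddCommGroup V] {f g : Perm V} (hf : Aff f) (hg : Aff g) :
    Aff (f * g : Perm V) := by
  intro x y z
  show f (g (x - y + z)) = f (g x) - f (g y) + f (g z)
  rw [hg, hf]

theorem OP_subtype {V : Type} (u : Perm V) (P : V → Prop) (hu : ∀ w, P (u w) ↔ P w) (h : OP u) :
    OP (u.subtypePerm hu) := by
  obtain ⟨m, hm, hum⟩ := h
  refine ⟨m, hm, ?_⟩
  rw [Perm.subtypePerm_pow]
  apply Equiv.ext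
  rintro ⟨w, hw⟩
  apply Subtype.ext
  show (u ^ m) w = w
  rw [hum]
  rfl

/-- Two permutations of odd order preserving a set with at most three points commute on it. -/
theorem comm_on {V : Type} [Finite V] (h : S_gen) (f g : Perm V) (P : V → Prop)
    (hP : Nat.card {x // P x} ≤ 3) (hf : OP f) (hg : OP g) (hfP : ∀ w, P (f w) ↔ P w)
    (hgP : ∀ w, P (g w) ↔ P w) (x : V) (hx : P x) : f (g x) = g (f x) := by
  have h1 := h.2 {x // P x} (f.subtypePerm hfP) (g.subtypePerm hgP) hP (OP_subtype f P hfP hf)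
    (OP_subtype g P hgP hg)
  exact congrArg Subtype.val (Perm.congr_fun h1 ⟨x, hx⟩)

theorem tr_equiv {V W : Type} (e : V ≃ W) (c : V → Bool) : tr (fun x => c (e.symm x)) = tr c :=
  Nat.card_congr (e.symm.subtypeEquiv (fun _ => Iff.rfl))

theorem conj_props {V W : Type} [AddCommGroup V] [AddCommGroup W] (e : V ≃+ W) (f : Perm W)
    (hf : Aff f) (hO : OP f) :
    ∃ f' : Perm V, Aff f' ∧ OP f' ∧ (∀ x, e (f' x) = f (e x)) := by
  let f' : Perm V := (e.toEquiv.trans f).trans e.symm.toEquiv
  have hf' : ∀ x, e (f' x) = f (e x) := fun x => e.apply_symm_apply _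
  refine ⟨f', ?_, ?_, hf'⟩
  · intro x y z
    apply e.injective
    rw [hf', map_add e, map_sub e, map_add e, map_sub e, hf', hf', hf', hf]
  · obtain ⟨m, hm, hfm⟩ := hO
    refine ⟨m, hm, ?_⟩
    have key : ∀ (k : ℕ) (x : V), e ((f' ^ k) x) = (f ^ k) (e x) := by
      intro k
      induction k with
      | zero => intro x; rfl
      | succ k ih =>
        intro x
        rw [pow_succ, Perm.mul_apply, ih, hf', pow_succ, Perm.mul_apply]
    apply Equiv.ext
    intro x
    apply e.injective
    rw [key, hfm]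
    rfl

theorem rig_equiv {V W : Type} [AddCommGroup V] [AddCommGroup W] (e : V ≃+ W) (c : V → Bool)
    (h : Rig c) : Rig (fun x => c (e.symm x)) := by
  intro f hf hO hfc
  obtain ⟨f', h1, h2, h3⟩ := conj_props e f hf hO
  have h4 := h f' h1 h2 (by
    intro x
    have h5 := hfc (e x)
    rw [← h3] at h5
    simpa using h5)
  apply Equiv.ext
  intro y
  obtain ⟨x, rfl⟩ := e.surjective y
  rw [← h3, h4]
  rfl

theorem goo_equiv {V W : Type} [AddCommGroup V] [AddCommGroup W] (e : V ≃+ W) (c : V → Bool)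
    (h : Goo c) : Goo (fun x => c (e.symm x)) := by
  intro f g hf hg hO hO' hfc hgc
  obtain ⟨f', h1, h2, h3⟩ := conj_props e f hf hO
  obtain ⟨g', k1, k2, k3⟩ := conj_props e g hg hO'
  have h4 := h f' g' h1 k1 h2 k2 (by
    intro x
    have h5 := hfc (e x)
    rw [← h3] at h5
    simpa using h5) (by
    intro x
    have h5 := hgc (e x)
    rw [← k3] at h5
    simpa using h5)
  apply Equiv.ext
  intro y
  obtain ⟨x, rfl⟩ := e.surjective y
  show f (g (e x)) = g (f (e x))
  rw [← k3, ← h3, ← h3, ← k3]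
  exact congrArg e (Perm.congr_fun h4 x)

theorem spn_equiv {V W : Type} [AddCommGroup V] [AddCommGroup W] (e : V ≃+ W) (c : V → Bool)
    (h : Spn c) : Spn (fun x => c (e.symm x)) := by
  intro x₀ U hU h1
  have h2 := h (e.symm x₀) {v | e v ∈ U} (by
    intro a ha b hb d hd
    show e (a - b + d) ∈ U
    rw [map_add, map_sub]
    exact hU _ ha _ hb _ hd) (by
    intro y hy hyx
    show e y ∈ U
    apply h1
    · simpa using hy
    · intro h3
      apply hyx
      rw [← h3]
      simp)
  intro v
  have := h2 (e.symm v)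
  simpa using this

theorem bas (h : S_gen) : S_bas := by
  have hsum : ∀ (V : Type) [Finite V] (c : V → Bool), tr c + tr (fun x => !c x) = Nat.card V := by
    intro X _ c
    have h1 : Nat.card {x // c x = true} + Nat.card {x // ¬ c x = true} = Nat.card X := by
      rw [← Nat.card_sum]
      exact Nat.card_congr (Equiv.sumCompl _)
    have h2 : tr (fun x => !c x) = Nat.card {x // ¬ c x = true} :=
      Nat.card_congr (Equiv.subtypeEquivRight (fun x => by simp))
    rw [h2]
    exact h1
  refine ⟨?_, ?_, ?_, ?_, ?_, hsum⟩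
  · intro V W _ _ f g S hf hg hS hfg
    exact aff_ext f g S hf hg hS hfg
  · intro V _ _ c hc hS f g hf hg hO hO' hfc hgc
    have h1 : ∀ x, c x = true → f (g x) = g (f x) :=
      comm_on h f g (fun x => c x = true) hc hO hO' (fun w => by rw [hfc]) (fun w => by rw [hgc])
    have h2 := aff_ext (f * g : Perm V) (g * f : Perm V) {x | c x = true} (hf.mul hg) (hg.mul hf)
      (fun U hU hs => hS U hU (fun x hx => hs hx)) h1
    exact DFunLike.coe_injective h2
  · intro V _ _ c hc hc' f g hf hg hO hO' hfc hgc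
    apply Equiv.ext
    intro x
    show f (g x) = g (f x)
    by_cases hx : c x = true
    · exact comm_on h f g (fun x => c x = true) hc hO hO' (fun w => by rw [hfc])
        (fun w => by rw [hgc]) x hx
    · exact comm_on h f g (fun x => (!c x) = true) hc' hO hO' (fun w => by rw [hfc])
        (fun w => by rw [hgc]) x (by simpa using hx)
  · intro V _ c
    refine ⟨?_, ?_, ?_⟩
    · intro hc f g hf hg hO hO' hfc hgc
      exact hc f g hf hg hO hO' (fun x => Bool.not_inj (hfc x)) (fun x => Bool.not_inj (hgc x))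
    · intro hc f hf hO hfc
      exact hc f hf hO (fun x => Bool.not_inj (hfc x))
    · intro hc f g hf hg hO hO' hfc hgc
      rw [hc f hf hO hfc, hc g hg hO' hgc]
  · intro V W _ _ e
    refine ⟨?_, ?_, ?_⟩
    · rintro ⟨c, h1, h2⟩
      refine ⟨fun i x => c i (e.symm x), fun i => goo_equiv e (c i) (h1 i), ?_⟩
      intro i j hij
      apply h2
      have h3 : ∀ i, tr (fun x => c i (e.symm x)) = tr (c i) := fun i => tr_equiv e.toEquiv (c i)
      rw [← h3 i, ← h3 j]
      exact hij
    · rintro ⟨c, c', h1, h2, h3, h4, h5⟩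
      refine ⟨fun x => c (e.symm x), fun x => c' (e.symm x), rig_equiv e c h1, spn_equiv e c h2,
        rig_equiv e c' h3, spn_equiv e c' h4, ?_⟩
      have h6 : tr (fun x => c (e.symm x)) = tr c := tr_equiv e.toEquiv c
      have h7 : tr (fun x => c' (e.symm x)) = tr c' := tr_equiv e.toEquiv c'
      rw [h6, h7]
      exact h5
    · rintro ⟨c, h1, h2, a, b, hab, ha, hb⟩
      refine ⟨fun x => c (e.symm x), rig_equiv e c h1, spn_equiv e c h2, e a, e b, ?_, ?_, ?_⟩
      · intro h3
        exact hab (e.injective h3)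
      · simpa using ha
      · simpa using hb

end Pool.Agent.Q157.SC
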