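import Mathlib
import Pool.Agent.Q157.SC.Stm
import Pool.Agent.Q157.SC.Bas

/-!
# Project SC: the class with seven elements
-/

set_option autoImplicit false

namespace Pool.Agent.Q157.SC

open Equiv

/-- The number of the pairs `(y, z)` of points of the class with `x + y + z` in the class. -/
def cnt (c : V4 → Bool) (x : V4) : ℕ :=
  ((Finset.univ : Finset (V4 × V4)).filter
    (fun q => c q.1 = true ∧ c q.2 = true ∧ c (x + q.1 + q.2) = true)).card

theorem v4_sub : ∀ a b : V4, a - b = a + b := by decide +kernel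

theorem v4_aff {f : Perm V4} (hf : Aff f) (x y z : V4) : f (x + y + z) = f x + f y + f z := by
  rw [← v4_sub x y, hf, v4_sub]

theorem cnt_inv (c : V4 → Bool) {f : Perm V4} (hf : Aff f) (hc : ∀ x, c (f x) = c x) (x : V4) :
    cnt c (f x) = cnt c x := by
  symm
  apply Finset.card_equiv (f.prodCongr f)
  intro q
  simp only [Finset.mem_filter, Finset.mem_univ, true_and, Equiv.prodCongr_apply, Prod.map_fst,
    Prod.map_snd]
  rw [hc, hc, ← v4_aff hf, hc]

theorem OP_back {V : Type} {f : Perm V} (h : OP f) (A : Set V) (hA : ∀ x ∈ A, f x ∈ A) (x : V)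
    (hx : f x ∈ A) : x ∈ A := by
  obtain ⟨m, ⟨k, hm⟩, hfm⟩ := h
  have key : ∀ (n : ℕ) (y : V), y ∈ A → (f ^ n) y ∈ A := by
    intro n
    induction n with
    | zero => intro y hy; exact hy
    | succ n ih =>
      intro y hy
      rw [pow_succ', Perm.mul_apply]
      exact hA _ (ih y hy)
  have h1 := key (2 * k) _ hx
  rw [← Perm.mul_apply, ← pow_succ, ← hm, hfm] at h1
  exact h1

theorem c7_zero : ∀ x : V4, c7 x = true → cnt c7 x = cnt c7 0 → x = 0 := by decide +kernel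

theorem c7_one : ∀ u v : V4, c7 u = true → c7 v = true → c7 (u + v) = true → u ≠ 0 →
    (u.2 = 0 → v.2 = 0) ∧ (u.1 = 0 → v.1 = 0) := by decide +kernel

theorem c7_or : ∀ u : V4, c7 u = true ↔ u.2 = 0 ∨ u.1 = 0 := by decide +kernel

theorem c7_add : ∀ u v : V4, (u.2 = 0 → v.2 = 0 → c7 (u + v) = true) ∧
    (u.1 = 0 → v.1 = 0 → c7 (u + v) = true) := by decide +kernel

theorem c7_pres (h1 : S_gen) {f : Perm V4} (hf : Aff f) (hO : OP f) (hc : ∀ x, c7 (f x) = c7 x) :
    f 0 = 0 ∧ (∀ x, x.2 = 0 → (f x).2 = 0) ∧ (∀ x, x.1 = 0 → (f x).1 = 0) := by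
  have h0 : f 0 = 0 := by
    apply c7_zero
    · rw [hc]
      decide
    · exact cnt_inv c7 hf hc 0
  have hadd : ∀ x y, f (x + y) = f x + f y := by
    intro x y
    have := v4_aff hf x 0 y
    rwa [h0, add_zero, add_zero] at this
  have hne : ∀ x, x ≠ 0 → f x ≠ 0 := by
    intro x hx h
    apply hx
    apply f.injective
    rw [h, h0]
  -- the planes are mapped to planes
  have hd1 : (∀ x : V4, x.2 = 0 → (f x).2 = 0) ∨ (∀ x : V4, x.2 = 0 → (f x).1 = 0) := by
    have hx0 : (((1, 0), (0, 0)) : V4) ≠ 0 := by decide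
    have h2 : c7 (f ((1, 0), (0, 0))) = true := by rw [hc]; decide
    rcases (c7_or _).1 h2 with h3 | h3
    · left
      intro y hy
      exact (c7_one (f ((1, 0), (0, 0))) (f y) h2 (by rw [hc]; exact (c7_or y).2 (Or.inl hy))
        (by rw [← hadd, hc]; exact (c7_add _ y).1 rfl hy) (hne _ hx0)).1 h3
    · right
      intro y hy
      exact (c7_one (f ((1, 0), (0, 0))) (f y) h2 (by rw [hc]; exact (c7_or y).2 (Or.inl hy))
        (by rw [← hadd, hc]; exact (c7_add _ y).1 rfl hy) (hne _ hx0)).2 h3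
  have hd2 : (∀ x : V4, x.1 = 0 → (f x).2 = 0) ∨ (∀ x : V4, x.1 = 0 → (f x).1 = 0) := by
    have hx0 : (((0, 0), (1, 0)) : V4) ≠ 0 := by decide
    have h2 : c7 (f ((0, 0), (1, 0))) = true := by rw [hc]; decide
    rcases (c7_or _).1 h2 with h3 | h3
    · left
      intro y hy
      exact (c7_one (f ((0, 0), (1, 0))) (f y) h2 (by rw [hc]; exact (c7_or y).2 (Or.inr hy))
        (by rw [← hadd, hc]; exact (c7_add _ y).2 rfl hy) (hne _ hx0)).1 h3
    · right
      intro y hy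
      exact (c7_one (f ((0, 0), (1, 0))) (f y) h2 (by rw [hc]; exact (c7_or y).2 (Or.inr hy))
        (by rw [← hadd, hc]; exact (c7_add _ y).2 rfl hy) (hne _ hx0)).2 h3
  refine ⟨h0, ?_⟩
  rcases hd1 with hd1 | hd1 <;> rcases hd2 with hd2 | hd2
  · -- both into the first plane
    exfalso
    have h3 : (((0, 0), (1, 0)) : V4) ∈ {x : V4 | x.2 = 0} :=
      OP_back hO {x : V4 | x.2 = 0} hd1 _ (hd2 _ rfl)
    have h4 : ((1, 0) : ZMod 2 × ZMod 2) = 0 := h3
    exact absurd h4 (by decide)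
  · exact ⟨hd1, hd2⟩
  · have h3 := h1.1 V4 f {x : V4 | x.2 = 0} hO (fun x hx => hd2 _ (hd1 x hx))
    have h4 := h1.1 V4 f {x : V4 | x.1 = 0} hO (fun x hx => hd1 _ (hd2 x hx))
    exact ⟨h3, h4⟩
  · exfalso
    have h3 : (((1, 0), (0, 0)) : V4) ∈ {x : V4 | x.1 = 0} :=
      OP_back hO {x : V4 | x.1 = 0} hd2 _ (hd1 _ rfl)
    have h4 : ((1, 0) : ZMod 2 × ZMod 2) = 0 := h3
    exact absurd h4 (by decide)

theorem c7g (h1 : S_gen) : S_c7 := by
  constructor
  · intro f g hf hg hO hO' hfc hgc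
    obtain ⟨f0, f1, f2⟩ := c7_pres h1 hf hO hfc
    obtain ⟨g0, g1, g2⟩ := c7_pres h1 hg hO' hgc
    have hiff : ∀ (u : Perm V4), OP u → u 0 = 0 → ∀ (P : V4 → Prop), (∀ x, P x → P (u x)) →
        ∀ w, (P (u w) ∧ u w ≠ 0) ↔ (P w ∧ w ≠ 0) := by
      intro u hu hu0 P hP w
      have h3 : u w ≠ 0 ↔ w ≠ 0 := by
        constructor
        · rintro h4 rfl
          exact h4 hu0
        · intro h4 h5
          apply h4
          apply u.injective
          rw [h5, hu0]
      rw [h3]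
      constructor
      · rintro ⟨h4, h5⟩
        exact ⟨OP_back hu {x | P x} hP w h4, h5⟩
      · rintro ⟨h4, h5⟩
        exact ⟨hP w h4, h5⟩
    have c1 : Nat.card {x : V4 // x.2 = 0 ∧ x ≠ 0} ≤ 3 := by
      rw [Nat.card_eq_fintype_card]
      decide +kernel
    have c2 : Nat.card {x : V4 // x.1 = 0 ∧ x ≠ 0} ≤ 3 := by
      rw [Nat.card_eq_fintype_card]
      decide +kernel
    have k1 := comm_on h1 f g (fun x => x.2 = 0 ∧ x ≠ 0) c1 hO hO'
      (hiff f hO f0 (fun x => x.2 = 0) f1) (hiff g hO' g0 (fun x => x.2 = 0) g1)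
    have k2 := comm_on h1 f g (fun x => x.1 = 0 ∧ x ≠ 0) c2 hO hO'
      (hiff f hO f0 (fun x => x.1 = 0) f2) (hiff g hO' g0 (fun x => x.1 = 0) g2)
    have h2 := aff_ext (f * g : Perm V4) (g * f : Perm V4) {x | c7 x = true} (hf.mul hg)
      (hg.mul hf) (by
        intro U hU hs v
        have ha : (v.1, (0 : ZMod 2 × ZMod 2)) ∈ U := hs ((c7_or _).2 (Or.inl rfl))
        have hb : ((0 : ZMod 2 × ZMod 2), v.2) ∈ U := hs ((c7_or _).2 (Or.inr rfl))
        have h0 : (0 : V4) ∈ U := hs (by show c7 0 = true; decide)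
        have h3 := hU _ ha _ h0 _ hb
        have h4 : (v.1, (0 : ZMod 2 × ZMod 2)) - 0 + ((0 : ZMod 2 × ZMod 2), v.2) = v := by simp
        rwa [h4] at h3) (by
        intro x hx
        show f (g x) = g (f x)
        by_cases hx0 : x = 0
        · rw [hx0, g0, f0, g0]
        · rcases (c7_or x).1 hx with h3 | h3
          · exact k1 x ⟨h3, hx0⟩
          · exact k2 x ⟨h3, hx0⟩)
    exact DFunLike.coe_injective h2
  · show Nat.card {x : V4 // c7 x = true} = 7
    rw [Nat.card_eq_fintype_card]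
    decide +kernel

end Pool.Agent.Q157.SC
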