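import Mathlib
import Pool.Agent.Q157.SC.Stm

/-!
# Project SC: three good colourings for primitive groups
-/

set_option autoImplicit false

namespace Pool.Agent.Q157.SC

open Equiv

theorem tr_perm {S : Type} [Finite S] (c c' : S → Bool) (g : Perm S) (h : ∀ x, c (g x) = c' x) :
    tr c = tr c' := by
  refine (Nat.card_congr ?_).symm
  exact g.subtypeEquiv (fun x => by rw [h])

theorem OP_fix {S : Type} (hg : S_gen) (g : Perm S) (h : OP g) (x y : S) (hx : g x = x ∨ g x = y)
    (hy : g y = x ∨ g y = y) : g x = x := by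
  rcases hx with hx | hx
  · exact hx
  rcases hy with hy | hy
  · have := hg.1 S g {x} h (by
      rintro z rfl
      show g (g z) = z
      rw [hx, hy]) x rfl
    exact this
  · have : x = y := g.injective (by rw [hx, hy])
    rw [hx, this]

theorem R1 (h1 : S_gen) (h2 : S_bas) (h3 : S_prim) (h4 : S_aff) (h5 : S_eight) : S_R1 := by
  classical
  intro S _ _ G hs hG
  obtain ⟨p, d, hp, e, hd, haff⟩ := h3 S G hs hG
  by_cases h8 : p = 2 ∧ d = 3
  · obtain ⟨rfl, rfl⟩ := h8
    have hcard : Nat.card S = 8 := by
      rw [Nat.card_congr e, Nat.card_eq_fintype_card, Fintype.card_fun, ZMod.card,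
        Fintype.card_fin]
      norm_num
    obtain ⟨hA, hB⟩ := h5 S G hs hG hcard
    have : Fintype S := Fintype.ofFinite S
    have hc8 : Fintype.card S = 8 := by rw [← Nat.card_eq_fintype_card, hcard]
    obtain ⟨T, -, hT⟩ := Finset.exists_subset_card_eq (s := (Finset.univ : Finset S)) (n := 3)
      (by rw [Finset.card_univ, hc8]; norm_num)
    obtain ⟨x, y, z, hxy, hxz, hyz, hTe⟩ := Finset.card_eq_three.1 hT
    let c0 : S → Bool := fun w => decide (w ∈ T)
    let c1 : S → Bool := fun w => !decide (w ∈ T)
    let c2 : S → Bool := fun w => decide (w ∈ ({x, y} : Finset S))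
    have t0 : tr c0 = 3 := by
      have : Nat.card {w // c0 w = true} = Nat.card T :=
        Nat.card_congr (Equiv.subtypeEquivRight (fun w => by simp [c0]))
      show Nat.card {w // c0 w = true} = 3
      rw [this, Nat.card_eq_fintype_card, Fintype.card_coe, hT]
    have t2 : tr c2 = 2 := by
      have : Nat.card {w // c2 w = true} = Nat.card ({x, y} : Finset S) :=
        Nat.card_congr (Equiv.subtypeEquivRight (fun w => by simp [c2]))
      show Nat.card {w // c2 w = true} = 2
      rw [this, Nat.card_eq_fintype_card, Fintype.card_coe, Finset.card_pair hxy]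
    have t1 : tr c1 = 5 := by
      have := h2.2.2.2.2.2 S c0
      rw [t0, hcard] at this
      have h6 : tr c1 = tr (fun x => !c0 x) := rfl
      omega
    have goodT : ∀ g ∈ G, ∀ h ∈ G, OP g → OP h → (∀ w, g w ∈ T ↔ w ∈ T) → (∀ w, h w ∈ T ↔ w ∈ T) →
        g * h = h * g := by
      intro g hg h hh hg1 hh1 hgT hhT
      let gT : Perm {w // w ∈ T} := g.subtypePerm hgT
      let hT' : Perm {w // w ∈ T} := h.subtypePerm hhT
      have hOP : ∀ (u : Perm S) (hu : ∀ w, u w ∈ T ↔ w ∈ T), OP u → OP (u.subtypePerm hu) := by
        rintro u hu ⟨m, hm, hum⟩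
        refine ⟨m, hm, ?_⟩
        rw [Perm.subtypePerm_pow]
        apply Equiv.ext
        rintro ⟨w, hw⟩
        apply Subtype.ext
        show (u ^ m) w = w
        rw [hum]
        rfl
      have hcom := h1.2 {w // w ∈ T} gT hT' (by
        rw [Nat.card_eq_fintype_card, Fintype.card_coe, hT]) (hOP g hgT hg1) (hOP h hhT hh1)
      have hfix : ∀ w ∈ T, (g * h * g⁻¹ * h⁻¹) w = w := by
        intro w hw
        have hw' : h⁻¹ w ∈ T := by
          rw [← hhT]
          show h (h.symm w) ∈ T
          rw [h.apply_symm_apply]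
          exact hw
        have hw2 : g⁻¹ (h⁻¹ w) ∈ T := by
          rw [← hgT]
          show g (g.symm _) ∈ T
          rw [g.apply_symm_apply]
          exact hw'
        have h7 := congrArg Subtype.val (Perm.congr_fun hcom ⟨g⁻¹ (h⁻¹ w), hw2⟩)
        have h8 : g (h (g⁻¹ (h⁻¹ w))) = h (g (g⁻¹ (h⁻¹ w))) := h7
        show g (h (g⁻¹ (h⁻¹ w))) = w
        rw [h8]
        show h (g (g.symm (h.symm w))) = w
        rw [g.apply_symm_apply, h.apply_symm_apply]
      have h9 := hA (g * h * g⁻¹ * h⁻¹)
        (G.mul_mem (G.mul_mem (G.mul_mem hg hh) (G.inv_mem hg)) (G.inv_mem hh)) x y z hxy hxz hyz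
        (hfix x (by simp [hTe])) (hfix y (by simp [hTe])) (hfix z (by simp [hTe]))
      rw [mul_inv_eq_one, mul_inv_eq_iff_eq_mul] at h9
      exact h9
    refine ⟨![c0, c1, c2], ?_, ?_⟩
    · intro i j g _ hgc
      have h6 := tr_perm _ _ g hgc
      fin_cases i <;> fin_cases j <;> simp [t0, t1, t2] at h6 ⊢
    · intro i g hg h hh hg1 hh1 hgc hhc
      have hc : ∀ u : Perm S, (∀ w, c0 (u w) = c0 w) → ∀ w, u w ∈ T ↔ w ∈ T := by
        intro u hu w
        have := hu w
        simpa [c0] using this
      have hc' : ∀ u : Perm S, (∀ w, c1 (u w) = c1 w) → ∀ w, u w ∈ T ↔ w ∈ T := by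
        intro u hu w
        have := hu w
        simp only [c1] at this
        have h10 := Bool.not_inj this
        simpa using h10
      have hc2' : ∀ u : Perm S, OP u → (∀ w, c2 (u w) = c2 w) → u x = x ∧ u y = y := by
        intro u hu huc
        have hx1 : u x = x ∨ u x = y := by
          have := huc x
          simpa [c2] using this
        have hy1 : u y = x ∨ u y = y := by
          have := huc y
          simpa [c2] using this
        exact ⟨OP_fix h1 u hu x y hx1 hy1, OP_fix h1 u hu y x hy1.symm hx1.symm⟩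
      fin_cases i
      · exact goodT g hg h hh hg1 hh1 (hc g hgc) (hc h hhc)
      · exact goodT g hg h hh hg1 hh1 (hc' g hgc) (hc' h hhc)
      · obtain ⟨gx, gy⟩ := hc2' g hg1 hgc
        obtain ⟨hx, hy⟩ := hc2' h hh1 hhc
        exact hB g hg h hh x y hxy gx gy hx hy
  · obtain ⟨c, hc1, hc2⟩ := h4 p d hd h8
    refine ⟨fun i x => c i (e x), ?_, ?_⟩
    · intro i j g _ hgc
      apply hc2
      have ht : ∀ i, tr (fun x => c i (e x)) = tr (c i) := by
        intro i
        exact Nat.card_congr (e.subtypeEquiv (fun x => Iff.rfl))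
      rw [← ht i, ← ht j]
      exact tr_perm _ _ g hgc
    · intro i g hg h hh hg1 hh1 hgc hhc
      let g' : Perm (Fin d → ZMod p) := e.permCongr g
      let h' : Perm (Fin d → ZMod p) := e.permCongr h
      have hOP : ∀ u : Perm S, OP u → OP (e.permCongr u) := by
        rintro u ⟨m, hm, hum⟩
        refine ⟨m, hm, ?_⟩
        have h6 : (e.permCongr u) ^ m = e.permCongr (u ^ m) := by
          have := map_pow e.permCongrHom.toMonoidHom u m
          exact this.symm
        rw [h6, hum]
        apply Equiv.ext
        intro v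
        simp [Equiv.permCongr_apply]
      have h7 := hc1 i g' h' (haff g hg) (haff h hh) (hOP g hg1) (hOP h hh1)
        (fun v => by
          show c i (e (g (e.symm v))) = c i v
          have := hgc (e.symm v)
          simpa using this)
        (fun v => by
          show c i (e (h (e.symm v))) = c i v
          have := hhc (e.symm v)
          simpa using this)
      apply Equiv.ext
      intro x
      have h8 := Perm.congr_fun h7 (e x)
      have h9 : e (g (e.symm (e (h (e.symm (e x)))))) = e (h (e.symm (e (g (e.symm (e x)))))) := h8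
      rw [e.symm_apply_apply, e.symm_apply_apply, e.symm_apply_apply] at h9
      exact e.injective h9

end Pool.Agent.Q157.SC
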