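import Mathlib
import Pool.Agent.Q157.SC.Stm
import Pool.Agent.Q157.SC.Fix

/-!
# Project SC: spanning, and the induction
-/

set_option autoImplicit false

namespace Pool.Agent.Q157.SC

open Equiv

theorem avoid {V : Type} [Finite V] (F : Finset V) (h : F.card < Nat.card V) : ∃ u, u ∉ F := by
  classical
  by_contra hc
  push Not at hc
  have : Fintype V := Fintype.ofFinite V
  have h1 : (Finset.univ : Finset V) ⊆ F := fun u _ => hc u
  have h2 := Finset.card_le_card h1
  rw [Finset.card_univ, ← Nat.card_eq_fintype_card] at h2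
  omega

theorem ex_true {V : Type} [AddCommGroup V] [DecidableEq V] {p : ℕ} [Fact p.Prime] (c : V → Bool)
    (q : V × ZMod p) (h1 : q.2 ≠ 0) (h2 : q ≠ (0, 1)) : ex p c q = true := by
  by_contra h
  have h3 : ex p c q = false := by simpa using h
  rw [ex_false] at h3
  rcases h3 with h3 | h3
  · exact h1 h3.1
  · exact h2 h3

theorem avoid2 {V : Type} [Finite V] (h : 3 ≤ Nat.card V) (a b : V) : ∃ u, u ≠ a ∧ u ≠ b := by
  classical
  obtain ⟨u, hu⟩ := avoid ({a, b} : Finset V) (lt_of_le_of_lt Finset.card_le_two (by omega))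
  simp only [Finset.mem_insert, Finset.mem_singleton, not_or] at hu
  exact ⟨u, hu⟩

/-- From the level `0` to everything. -/
theorem span_up {V : Type} [AddCommGroup V] [Finite V] [DecidableEq V] {p : ℕ} [Fact p.Prime]
    (c : V → Bool) (hc : 3 ≤ Nat.card V) (x₀ : V × ZMod p) (W : Set (V × ZMod p)) (hW : Closed W)
    (h : ∀ y, ex p c y = true → y ≠ x₀ → y ∈ W) (h0 : ∀ v, (v, 0) ∈ W) : ∀ q, q ∈ W := by
  rintro ⟨v, s⟩
  by_cases hs : s = 0
  · rw [hs]
    exact h0 v
  obtain ⟨u, hu1, hu2⟩ := avoid2 hc (-v) (x₀.1 - v)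
  have h1 : (v + u, s) ∈ W := by
    apply h
    · apply ex_true c _ hs
      intro h2
      have h3 := congrArg Prod.fst h2
      exact hu1 (eq_neg_of_add_eq_zero_right h3)
    · intro h2
      have h3 := congrArg Prod.fst h2
      apply hu2
      rw [← h3]
      show u = v + u - v
      abel
  have h4 := hW _ h1 _ (h0 u) _ (h0 0)
  have h5 : ((v + u, s) - (u, 0) + (0, 0) : V × ZMod p) = (v, s) := by simp
  rwa [h5] at h4

theorem sp3 : S_sp3 := by
  intro p _ V _ _ _ c hp hc x₀ W hW h
  have h20 : (2 : ZMod p) ≠ 0 := by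
    intro h2
    have h3 : ((2 : ℕ) : ZMod p) = 0 := by exact_mod_cast h2
    rw [ZMod.natCast_eq_zero_iff] at h3
    have := Nat.le_of_dvd (by norm_num) h3
    omega
  have h21 : (2 : ZMod p) ≠ 1 := by
    intro h2
    have h3 : (2 : ZMod p) - 1 = 0 := by rw [h2, sub_self]
    have h4 : (2 : ZMod p) - 1 = 1 := by norm_num
    rw [h4] at h3
    exact one_ne_zero h3
  apply span_up c hc x₀ W hW h
  intro v
  have hkey : ∀ u w : V, (v + u, (1 : ZMod p)) ∈ W → (u + w, (2 : ZMod p)) ∈ W →
      (w, (1 : ZMod p)) ∈ W → (v, (0 : ZMod p)) ∈ W := by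
    intro u w h1 h2 h3
    have h4 := hW _ h1 _ h2 _ h3
    have h5 : ((v + u, 1) - (u + w, 2) + (w, 1) : V × ZMod p) = (v, 0) := by
      refine Prod.ext ?_ ?_
      · show v + u - (u + w) + w = v
        abel
      · show (1 : ZMod p) - 2 + 1 = 0
        ring
    rwa [h5] at h4
  by_cases hx : x₀.2 = 2
  · obtain ⟨w, hw, -⟩ := avoid2 hc (0 : V) 0
    obtain ⟨u, hu1, hu2⟩ := avoid2 hc (-v) (x₀.1 - w)
    apply hkey u w
    · apply h
      · apply ex_true c _ one_ne_zero
        intro h2
        exact hu1 (eq_neg_of_add_eq_zero_right (congrArg Prod.fst h2))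
      · intro h2
        have h3 : (1 : ZMod p) = x₀.2 := congrArg Prod.snd h2
        rw [hx] at h3
        exact h21 h3.symm
    · apply h
      · apply ex_true c _ h20
        intro h2
        exact h21 (congrArg Prod.snd h2)
      · intro h2
        apply hu2
        have h3 : u + w = x₀.1 := congrArg Prod.fst h2
        rw [← h3]
        abel
    · apply h
      · apply ex_true c _ one_ne_zero
        intro h2
        exact hw (congrArg Prod.fst h2)
      · intro h2
        have h3 : (1 : ZMod p) = x₀.2 := congrArg Prod.snd h2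
        rw [hx] at h3
        exact h21 h3.symm
  · obtain ⟨w, hw1, hw2⟩ := avoid2 hc (0 : V) x₀.1
    obtain ⟨u, hu1, hu2⟩ := avoid2 hc (-v) (x₀.1 - v)
    apply hkey u w
    · apply h
      · apply ex_true c _ one_ne_zero
        intro h2
        exact hu1 (eq_neg_of_add_eq_zero_right (congrArg Prod.fst h2))
      · intro h2
        apply hu2
        have h3 : v + u = x₀.1 := congrArg Prod.fst h2
        rw [← h3]
        abel
    · apply h
      · apply ex_true c _ h20
        intro h2
        exact h21 (congrArg Prod.snd h2)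
      · intro h2
        apply hx
        exact (congrArg Prod.snd h2).symm
    · apply h
      · apply ex_true c _ one_ne_zero
        intro h2
        exact hw1 (congrArg Prod.fst h2)
      · intro h2
        exact hw2 (congrArg Prod.fst h2)

theorem sp2 : S_sp2 := by
  intro V _ _ _ c h2v hc ⟨a, b, hab, ha, hb⟩ x₀ W hW h
  have hneg : ∀ v : V, -v = v := fun v => neg_eq_of_add_eq_zero_right (h2v v)
  obtain ⟨b, hb, hbx⟩ : ∃ b, c b = false ∧ (b, (0 : ZMod 2)) ≠ x₀ := by
    by_cases h1 : (a, (0 : ZMod 2)) = x₀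
    · refine ⟨b, hb, ?_⟩
      rw [← h1]
      intro h3
      exact hab (congrArg Prod.fst h3).symm
    · exact ⟨a, ha, h1⟩
  have hbW : (b, (0 : ZMod 2)) ∈ W := by
    apply h _ _ hbx
    unfold ex
    simp [hb]
  apply span_up c (by omega) x₀ W hW h
  intro v
  obtain ⟨u, hu⟩ := avoid ({0, x₀.1, v + b, v + b + x₀.1} : Finset V)
    (lt_of_le_of_lt Finset.card_le_four (by omega))
  simp only [Finset.mem_insert, Finset.mem_singleton, not_or] at hu
  obtain ⟨hu1, hu2, hu3, hu4⟩ := hu
  have h10 : (1 : ZMod 2) ≠ 0 := one_ne_zero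
  have h1 : (u, (1 : ZMod 2)) ∈ W := by
    apply h
    · apply ex_true c _ h10
      intro h3
      exact hu1 (congrArg Prod.fst h3)
    · intro h3
      exact hu2 (congrArg Prod.fst h3)
  have h2 : (v + b + u, (1 : ZMod 2)) ∈ W := by
    apply h
    · apply ex_true c _ h10
      intro h3
      have h4 := eq_neg_of_add_eq_zero_right (congrArg Prod.fst h3)
      rw [hneg] at h4
      exact hu3 h4
    · intro h3
      apply hu4
      have h4 : v + b + u = x₀.1 := congrArg Prod.fst h3
      rw [← h4, ← add_assoc, h2v, zero_add]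
  have h3 := hW _ h2 _ h1 _ hbW
  have h4 : ((v + b + u, 1) - (u, 1) + (b, 0) : V × ZMod 2) = (v, 0) := by
    refine Prod.ext ?_ ?_
    · show v + b + u - u + b = v
      rw [add_sub_cancel_right, add_assoc, h2v, add_zero]
    · show (1 : ZMod 2) - 1 + 0 = 0
      ring
  rwa [h4] at h3

theorem ind3 (h1 : S_bas) (h2 : S_rig) (h3 : S_sp3) (h4 : S_siz) : S_ind3 := by
  classical
  intro p _ V _ _ hp hc hodd ⟨c, c', hR, hS, hR', hS', hne⟩
  have hp' : p.Prime := Fact.out
  have t1 := h4.1 p V c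
  have t2 := h4.1 p V c'
  have hnz : NeZero p := ⟨hp'.ne_zero⟩
  have hR1 := h2 p V c hR hS
  have hR2 := h2 p V c' hR' hS'
  have hS1 := h3 p V c hp hc
  have hS2 := h3 p V c' hp hc
  have hle : tr c ≤ Nat.card V := Nat.card_le_card_of_injective Subtype.val Subtype.val_injective
  have hle' : tr c' ≤ Nat.card V := Nat.card_le_card_of_injective Subtype.val Subtype.val_injective
  have hcp := h1.2.2.2.2.2 (V × ZMod p) (ex p c)
  rw [Nat.card_prod, Nat.card_zmod] at hcp
  have hoddp : Odd (Nat.card V * p) := hodd.mul (hp'.odd_of_ne_two (by omega))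
  have hbig : 3 * Nat.card V ≤ Nat.card V * p := by nlinarith
  refine ⟨⟨ex p c, ex p c', hR1, hS1, hR2, hS2, by omega⟩,
    ⟨![ex p c, ex p c', fun x => !ex p c x], ?_, ?_⟩⟩
  · intro i
    fin_cases i
    · exact (h1.2.2.2.1 _ (ex p c)).2.2 hR1
    · exact (h1.2.2.2.1 _ (ex p c')).2.2 hR2
    · exact (h1.2.2.2.1 _ (ex p c)).1 ((h1.2.2.2.1 _ (ex p c)).2.2 hR1)
  · obtain ⟨k, hk⟩ := hoddp
    have e01 : tr (ex p c) ≠ tr (ex p c') := by omega
    have e02 : tr (ex p c) ≠ tr (fun x => !ex p c x) := by omega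
    have e12 : tr (ex p c') ≠ tr (fun x => !ex p c x) := by omega
    intro i j hij
    fin_cases i <;> fin_cases j
    · rfl
    · exact absurd hij e01
    · exact absurd hij e02
    · exact absurd hij.symm e01
    · rfl
    · exact absurd hij e12
    · exact absurd hij.symm e02
    · exact absurd hij.symm e12
    · rfl

theorem ind2 (h1 : S_bas) (h2 : S_rig) (h3 : S_plr) (h4 : S_sp2) (h5 : S_siz) : S_ind2 := by
  classical
  intro V _ _ h2v hc ⟨c, hR, hS, a, b, hab, ha, hb⟩
  have t1 := h5.1 2 V c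
  have t2 := h5.2 V c
  have hR1 := h2 2 V c hR hS
  have hR2 := h3 V c hR hS
  have hS1 := h4 V c h2v hc ⟨a, b, hab, ha, hb⟩
  have hcp := h1.2.2.2.2.2 (V × ZMod 2) (ex 2 c)
  rw [Nat.card_prod, Nat.card_zmod] at hcp
  have hcc := h1.2.2.2.2.2 V c
  have hf2 : 2 ≤ tr (fun x => !c x) := by
    have : Nat.card (Fin 2) ≤ Nat.card {x // (!c x) = true} := by
      apply Nat.card_le_card_of_injective
        (fun i : Fin 2 => if i = 0 then (⟨a, by simp [ha]⟩ : {x // (!c x) = true})
          else ⟨b, by simp [hb]⟩)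
      intro i j hij
      fin_cases i <;> fin_cases j
      · rfl
      · exact absurd (congrArg Subtype.val hij) hab
      · exact absurd (congrArg Subtype.val hij).symm hab
      · rfl
    rw [Nat.card_eq_fintype_card, Fintype.card_fin] at this
    exact this
  obtain ⟨v, hv⟩ : ∃ v, c v = true := by
    by_contra hcon
    push Not at hcon
    exact hS 0 ∅ (fun x hx => hx.elim) (fun y hy _ => absurd hy (hcon y)) 0
  refine ⟨⟨ex 2 c, hR1, hS1, (0, 1), (v, 0), ?_, ?_, ?_⟩,
    ⟨![ex 2 c, fun x => !ex 2 c x, pl 2 c], ?_, ?_⟩⟩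
  · intro h
    exact one_ne_zero (congrArg Prod.snd h)
  · exact (ex_false c _).2 (Or.inr rfl)
  · exact (ex_false c _).2 (Or.inl ⟨rfl, hv⟩)
  · intro i
    fin_cases i
    · exact (h1.2.2.2.1 _ (ex 2 c)).2.2 hR1
    · exact (h1.2.2.2.1 _ (ex 2 c)).1 ((h1.2.2.2.1 _ (ex 2 c)).2.2 hR1)
    · exact (h1.2.2.2.1 _ (pl 2 c)).2.2 hR2
  · have e01 : tr (ex 2 c) ≠ tr (fun x => !ex 2 c x) := by omega
    have e02 : tr (ex 2 c) ≠ tr (pl 2 c) := by omega
    have e12 : tr (fun x => !ex 2 c x) ≠ tr (pl 2 c) := by omega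
    intro i j hij
    fin_cases i <;> fin_cases j
    · rfl
    · exact absurd hij e01
    · exact absurd hij e02
    · exact absurd hij.symm e01
    · rfl
    · exact absurd hij e12
    · exact absurd hij.symm e02
    · exact absurd hij.symm e12
    · rfl

end Pool.Agent.Q157.SC
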