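import Mathlib
import Pool.Agent.Q157.SC.Stm

/-!
# Project SC: all the vector spaces
-/

set_option autoImplicit false

namespace Pool.Agent.Q157.SC

open Equiv

theorem b4 (h1 : S_bas) (h2 : S_c7) (h3 : S_c8) : S_b4 := by
  obtain ⟨g7, t7⟩ := h2
  obtain ⟨r8, s8, t8⟩ := h3
  have hcard : Nat.card V4 = 16 := by
    simp [V4, Nat.card_prod, Nat.card_zmod]
  have h9 := h1.2.2.2.2.2 V4 c7
  rw [t7, hcard] at h9
  constructor
  · refine ⟨![c7, fun x => !c7 x, c8], ?_, ?_⟩
    · intro i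
      fin_cases i
      · exact g7
      · exact (h1.2.2.2.1 _ c7).1 g7
      · exact (h1.2.2.2.1 _ c8).2.2 r8
    · have e01 : tr c7 ≠ tr (fun x => !c7 x) := by omega
      have e02 : tr c7 ≠ tr c8 := by omega
      have e12 : tr (fun x => !c7 x) ≠ tr c8 := by omega
      intro i j hij
      fin_cases i <;> fin_cases j
      · rfl
      · exact absurd hij e01
      · exact absurd hij e02
      · exact absurd hij.symm e01
      · rfl
      · exact absurd hij e12
      · exact absurd hij.symm e02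
      · exact absurd hij.symm e12
      · rfl
  · exact ⟨c8, r8, s8, ((0, 1), (0, 1)), ((1, 0), (1, 0)), by decide, by decide, by decide⟩

theorem addEquiv_of {p : ℕ} [Fact p.Prime] (V W : Type) [AddCommGroup V] [AddCommGroup W]
    [Module (ZMod p) V] [Module (ZMod p) W] [Module.Finite (ZMod p) V] [Module.Finite (ZMod p) W]
    (h : Module.finrank (ZMod p) V = Module.finrank (ZMod p) W) : Nonempty (V ≃+ W) :=
  ⟨(LinearEquiv.ofFinrankEq V W h).toAddEquiv⟩

theorem equivS {p : ℕ} [Fact p.Prime] (d : ℕ) :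
    Nonempty (((Fin d → ZMod p) × ZMod p) ≃+ (Fin (d + 1) → ZMod p)) := by
  apply addEquiv_of (p := p)
  simp

theorem equivOne {p : ℕ} [Fact p.Prime] : Nonempty (ZMod p ≃+ (Fin 1 → ZMod p)) := by
  apply addEquiv_of (p := p)
  simp

theorem equivTwo {p : ℕ} [Fact p.Prime] : Nonempty ((ZMod p × ZMod p) ≃+ (Fin 2 → ZMod p)) := by
  apply addEquiv_of (p := p)
  simp

theorem equivFour : Nonempty (V4 ≃+ (Fin 4 → ZMod 2)) := by
  apply addEquiv_of (p := 2)
  simp

theorem aff (h1 : S_bas) (h2 : S_ind3) (h3 : S_ind2) (h4 : S_b5) (h5 : S_b3) (h6 : S_b2)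
    (h7 : S_b4) : S_aff := by
  have tr3 : ∀ (V W : Type) [AddCommGroup V] [AddCommGroup W], Nonempty (V ≃+ W) →
      (Three V → Three W) ∧ (Two V → Two W) ∧ (One V → One W) := by
    rintro V W _ _ ⟨e⟩
    exact h1.2.2.2.2.1 V W e
  have step3 : ∀ (p d : ℕ) [Fact p.Prime], 3 ≤ p → Two (Fin (d + 1) → ZMod p) →
      Two (Fin (d + 2) → ZMod p) ∧ Three (Fin (d + 2) → ZMod p) := by
    intro p d _ hp hT
    have hp' : p.Prime := Fact.out
    have hnz : NeZero p := ⟨hp'.ne_zero⟩
    have hcard : Nat.card (Fin (d + 1) → ZMod p) = p ^ (d + 1) := by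
      rw [Nat.card_eq_fintype_card, Fintype.card_fun, ZMod.card, Fintype.card_fin]
    obtain ⟨k1, k2⟩ := h2 p (Fin (d + 1) → ZMod p) hp (by
        rw [hcard]
        calc 3 ≤ p := hp
          _ = p ^ 1 := (pow_one p).symm
          _ ≤ p ^ (d + 1) := Nat.pow_le_pow_right hp'.pos (by omega)) (by
        rw [hcard]
        exact (hp'.odd_of_ne_two (by omega)).pow) hT
    obtain ⟨e1, e2, -⟩ := tr3 _ _ (equivS (p := p) (d + 1))
    exact ⟨e2 k1, e1 k2⟩
  have all3 : ∀ (p : ℕ) [Fact p.Prime] (n : ℕ), 3 ≤ p → Two (Fin (n + 1) → ZMod p) → ∀ d,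
      Two (Fin (n + 1 + d) → ZMod p) ∧ (1 ≤ d → Three (Fin (n + 1 + d) → ZMod p)) := by
    intro p _ n hp h0 d
    induction d with
    | zero => exact ⟨h0, fun h => absurd h (by omega)⟩
    | succ d ih =>
      obtain ⟨k1, k2⟩ := step3 p (n + d) hp (by
        have h8 : n + d + 1 = n + 1 + d := by ring
        rw [h8]
        exact ih.1)
      have h8 : n + d + 2 = n + 1 + (d + 1) := by ring
      rw [h8] at k1 k2
      exact ⟨k1, fun _ => k2⟩
  have all2 : ∀ d, One (Fin (4 + d) → ZMod 2) ∧ Three (Fin (4 + d) → ZMod 2) := by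
    intro d
    induction d with
    | zero =>
      obtain ⟨e1, -, e3⟩ := tr3 _ _ equivFour
      exact ⟨e3 h7.2, e1 h7.1⟩
    | succ d ih =>
      have hcard : Nat.card (Fin (4 + d) → ZMod 2) = 2 ^ (4 + d) := by
        rw [Nat.card_eq_fintype_card, Fintype.card_fun, ZMod.card, Fintype.card_fin]
      obtain ⟨k1, k2⟩ := h3 (Fin (4 + d) → ZMod 2) (by
          intro v
          funext i
          show v i + v i = 0
          have : ∀ t : ZMod 2, t + t = 0 := by decide
          exact this _) (by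
          rw [hcard]
          calc 8 = 2 ^ 3 := by norm_num
            _ ≤ 2 ^ (4 + d) := Nat.pow_le_pow_right (by norm_num) (by omega)) ih.1
      obtain ⟨e1, -, e3⟩ := tr3 _ _ (equivS (p := 2) (4 + d))
      exact ⟨e3 k1, e1 k2⟩
  intro p d hp hd hne
  have hp' : p.Prime := hp.out
  by_cases h2p : p = 2
  · subst h2p
    have hd3 : d ≠ 3 := fun h => hne ⟨rfl, h⟩
    obtain h | h | h : d = 1 ∨ d = 2 ∨ 4 ≤ d := by omega
    · subst h
      exact (tr3 _ _ (equivOne (p := 2))).1 h6.1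
    · subst h
      exact (tr3 _ _ (equivTwo (p := 2))).1 h6.2
    · obtain ⟨e, rfl⟩ := Nat.exists_eq_add_of_le h
      exact (all2 e).2
  by_cases h3p : p = 3
  · subst h3p
    obtain h | h | h : d = 1 ∨ d = 2 ∨ 3 ≤ d := by omega
    · subst h
      exact (tr3 _ _ (equivOne (p := 3))).1 h5.1
    · subst h
      exact (tr3 _ _ (equivTwo (p := 3))).1 h5.2.1
    · obtain ⟨e, rfl⟩ := Nat.exists_eq_add_of_le h
      have h8 := (all3 3 1 le_rfl ((tr3 _ _ (equivTwo (p := 3))).2.1 h5.2.2) (e + 1)).2 (by omega)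
      have h9 : 1 + 1 + (e + 1) = 3 + e := by ring
      rw [h9] at h8
      exact h8
  have h5p : 5 ≤ p := by
    have h2 := hp'.two_le
    by_contra hcon
    have h4 : p = 4 := by omega
    rw [h4] at hp'
    exact absurd hp' (by norm_num)
  obtain ⟨b1, b2⟩ := h4 p h5p
  obtain h | h : d = 1 ∨ 2 ≤ d := by omega
  · subst h
    exact (tr3 _ _ (equivOne (p := p))).1 b1
  · obtain ⟨e, rfl⟩ := Nat.exists_eq_add_of_le h
    have h8 := (all3 p 0 (by omega) ((tr3 _ _ (equivOne (p := p))).2.1 b2) (e + 1)).2 (by omega)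
    have h9 : 0 + 1 + (e + 1) = 2 + e := by ring
    rw [h9] at h8
    exact h8

end Pool.Agent.Q157.SC
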