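import Mathlib
import Pool.Agent.Q6.ThreeCol.Step
import Pool.Agent.Q157.SC.Stm

/-!
# Project SC: primitive solvable groups
-/

set_option autoImplicit false

namespace Pool.Agent.Q157.SC

open Equiv MulAction

/-- A nontrivial normal subgroup of a primitive group is transitive. -/
theorem normal_trans {S : Type} (G : Subgroup (Perm S)) (hG : IsPreprimitive G S)
    (N : Subgroup (Perm S)) (hN : N ≠ ⊥) (hNG : N ≤ G) (hn : ∀ g ∈ G, ∀ n ∈ N, g * n * g⁻¹ ∈ N)
    (x y : S) : ∃ n ∈ N, n x = y := by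
  have hnorm : (N.subgroupOf G).Normal := by
    constructor
    rintro ⟨n, hn1⟩ hn2 ⟨g, hg⟩
    exact hn g hg n hn2
  have hfix : fixedPoints (N.subgroupOf G) S ≠ Set.univ := by
    intro h
    apply hN
    rw [eq_bot_iff]
    intro n hn'
    rw [Subgroup.mem_bot]
    apply Equiv.ext
    intro z
    have hz : z ∈ fixedPoints (N.subgroupOf G) S := by rw [h]; trivial
    exact hz ⟨⟨n, hNG hn'⟩, hn'⟩
  have hq : IsQuasiPreprimitive G S := inferInstance
  have ht : IsPretransitive (N.subgroupOf G) S := hq.isPretransitive_of_normal hfix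
  obtain ⟨⟨⟨n, hn1⟩, hn2⟩, hn3⟩ := ht.exists_smul_eq x y
  exact ⟨n, hn2, hn3⟩

theorem prim : S_prim := by
  intro S _ _ G hs hG
  have hne : G ≠ ⊥ := by
    rintro rfl
    obtain ⟨x, y, hxy⟩ := exists_pair_ne S
    obtain ⟨⟨g, hg⟩, hgx⟩ := (hG.toIsPretransitive).exists_smul_eq x y
    rw [Subgroup.mem_bot] at hg
    subst hg
    exact hxy hgx
  obtain ⟨p, hp, N, hNG, hN, hnorm, hcomm, hexp⟩ := Q6.ThreeCol.exists_normal G hs hne
  have : Fact p.Prime := ⟨hp⟩
  have htr := normal_trans G hG N hN hNG hnorm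
  obtain ⟨b⟩ : Nonempty S := inferInstance
  obtain ⟨d, φ, hφ⟩ := Q6.ThreeCol.exists_phi (p := p) hcomm hexp b
  let e0 : S ≃ {ω : S // ∃ n ∈ N, n b = ω} :=
    { toFun := fun x => ⟨x, htr b x⟩
      invFun := fun x => x.1
      left_inv := fun x => rfl
      right_inv := fun x => rfl }
  let e : S ≃ (Fin d → ZMod p) := e0.trans φ
  have he : ∀ n ∈ N, ∀ x y x' y' : S, n x = x' → n y = y' → e x' - e x = e y' - e y := by
    intro n hn x y x' y' h1 h2
    exact hφ n hn (e0 x) (e0 y) (e0 x') (e0 y') h1 h2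
  refine ⟨p, d, this, e, ?_, ?_⟩
  · by_contra hd
    have hd0 : d = 0 := by omega
    subst hd0
    obtain ⟨x, y, hxy⟩ := exists_pair_ne S
    exact hxy (e.injective (Subsingleton.elim _ _))
  · intro g hg u v w
    obtain ⟨x, rfl⟩ := e.surjective u
    obtain ⟨y, rfl⟩ := e.surjective v
    obtain ⟨z, rfl⟩ := e.surjective w
    obtain ⟨n, hn, hnyx⟩ := htr y x
    have h1 := he n hn y z x (n z) hnyx rfl
    have ht : e x - e y + e z = e (n z) := by
      rw [h1, sub_add_cancel]
    have h2 := he (g * n * g⁻¹) (hnorm g hg n hn) (g y) (g z) (g x) (g (n z)) (by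
      show g (n (g⁻¹ (g y))) = g x
      have : g⁻¹ (g y) = y := g.symm_apply_apply y
      rw [this, hnyx]) (by
      show g (n (g⁻¹ (g z))) = g (n z)
      have : g⁻¹ (g z) = z := g.symm_apply_apply z
      rw [this])
    show e (g (e.symm (e x - e y + e z))) = e (g (e.symm (e x))) - e (g (e.symm (e y))) +
      e (g (e.symm (e z)))
    rw [ht, e.symm_apply_apply, e.symm_apply_apply, e.symm_apply_apply, e.symm_apply_apply, h2,
      sub_add_cancel]

end Pool.Agent.Q157.SC
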