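import Mathlib
import Pool.Agent.Q6.ThreeCol.Step
import Pool.Agent.Q157.SC.Stm
import Pool.Agent.Q157.SC.Prim

/-!
# Project SC: primitive solvable groups of degree 8
-/

set_option autoImplicit false

namespace Pool.Agent.Q157.SC

open Equiv MulAction

/-- A `7`-element of a permutation group of degree 8 has exactly one fixed point or is trivial. -/
theorem fix_one {S : Type} [Finite S] (h8 : Nat.card S = 8) (k : Perm S) (hk : k ^ 7 = 1) (x y : S)
    (hxy : x ≠ y) (hx : k x = x) (hy : k y = y) : k = 1 := by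
  have hp7 : Fact (Nat.Prime 7) := ⟨by norm_num⟩
  have hP : IsPGroup 7 (Subgroup.zpowers k) := by
    rintro ⟨g, ⟨i, rfl⟩⟩
    refine ⟨1, Subtype.ext ?_⟩
    show (k ^ i) ^ (7 ^ 1) = 1
    rw [pow_one, ← zpow_natCast, ← zpow_mul, mul_comm, zpow_mul, zpow_natCast, hk, one_zpow]
  have hmod := hP.card_modEq_card_fixedPoints S
  have hmemfix : ∀ z, z ∈ fixedPoints (Subgroup.zpowers k) S ↔ k z = z := by
    intro z
    constructor
    · intro h
      exact h ⟨k, Subgroup.mem_zpowers k⟩
    · rintro h ⟨g, ⟨i, rfl⟩⟩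
      show (k ^ i) z = z
      exact Perm.zpow_apply_eq_self_of_apply_eq_self h i
  have hle : Nat.card (fixedPoints (Subgroup.zpowers k) S) ≤ 8 := by
    rw [← h8]
    exact Nat.card_le_card_of_injective Subtype.val Subtype.val_injective
  have hge : 2 ≤ Nat.card (fixedPoints (Subgroup.zpowers k) S) := by
    have h1 : Nat.card (Fin 2) ≤ Nat.card (fixedPoints (Subgroup.zpowers k) S) := by
      apply Nat.card_le_card_of_injective
        (fun i : Fin 2 => if i = 0 then (⟨x, (hmemfix x).2 hx⟩ : fixedPoints (Subgroup.zpowers k) S)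
          else ⟨y, (hmemfix y).2 hy⟩)
      intro i j hij
      fin_cases i <;> fin_cases j
      · rfl
      · exact absurd (congrArg Subtype.val hij) hxy
      · exact absurd (congrArg Subtype.val hij).symm hxy
      · rfl
    simpa using h1
  rw [h8] at hmod
  have hc : Nat.card (fixedPoints (Subgroup.zpowers k) S) = 8 := by
    unfold Nat.ModEq at hmod
    omega
  have huniv : fixedPoints (Subgroup.zpowers k) S = Set.univ := by
    apply Set.eq_of_subset_of_ncard_le (Set.subset_univ _)
    · rw [Set.ncard_univ, h8]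
      exact le_of_eq (by rw [← hc]; rfl)
  apply Equiv.ext
  intro z
  have hz : z ∈ fixedPoints (Subgroup.zpowers k) S := by rw [huniv]; trivial
  exact (hmemfix z).1 hz

theorem eight_core {S : Type} [Finite S] (G : Subgroup (Perm S)) (hs : Group.IsSolvable G)
    (hG : IsPreprimitive G S) (h8 : Nat.card S = 8) (a : S) :
    (∀ g ∈ G, g a = a → g = 1) ∨
    ∃ K : Subgroup (Perm S), K ≠ ⊥ ∧ (∀ k ∈ K, k a = a) ∧ (∀ k ∈ K, k ^ 7 = 1) ∧
      (∀ k ∈ K, ∀ l ∈ K, k * l = l * k) ∧ ∀ g ∈ G, g a = a → ∀ k ∈ K, g * k * g⁻¹ ∈ K := by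
  classical
  have hnt : Nontrivial S := by
    rw [← Finite.one_lt_card_iff_nontrivial, h8]
    norm_num
  let H : Subgroup (Perm S) := G ⊓ stabilizer (Perm S) a
  have hHmem : ∀ g, g ∈ H ↔ g ∈ G ∧ g a = a := fun g => Iff.rfl
  by_cases hH : H = ⊥
  · left
    intro g hg hga
    have : g ∈ H := (hHmem g).2 ⟨hg, hga⟩
    rw [hH, Subgroup.mem_bot] at this
    exact this
  right
  have hGne : G ≠ ⊥ := by
    rintro rfl
    apply hH
    exact le_bot_iff.1 inf_le_left
  obtain ⟨p, hp, N, hNG, hN, hnorm, hcomm, hexp⟩ := Q6.ThreeCol.exists_normal G hs hGne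
  have htr := normal_trans G hG N hN hNG hnorm
  have hreg : ∀ n ∈ N, ∀ x, n x = x → n = 1 := by
    intro n hn x hx
    apply Equiv.ext
    intro y
    obtain ⟨m, hm, hmy⟩ := htr x y
    have h1 : n (m x) = m (n x) := by
      have := Perm.congr_fun (hcomm n hn m hm) x
      exact this
    rw [hmy, hx, hmy] at h1
    exact h1
  have hreg2 : ∀ n ∈ N, ∀ m ∈ N, ∀ x, n x = m x → n = m := by
    intro n hn m hm x hx
    have h1 := hreg (m⁻¹ * n) (N.mul_mem (N.inv_mem hm) hn) x (by
      show m⁻¹ (n x) = x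
      rw [hx]
      exact m.symm_apply_apply x)
    exact (inv_mul_eq_one.1 h1).symm
  have hsH : Group.IsSolvable H := by
    have hle : H ≤ G := inf_le_left
    exact Group.isSolvable_of_isSolvable_injective (Subgroup.inclusion_injective hle)
  obtain ⟨r, hr, K, hKH, hK, hKn, hKc, hKe⟩ := Q6.ThreeCol.exists_normal H hsH hH
  have hKa : ∀ k ∈ K, k a = a := fun k hk => ((hHmem k).1 (hKH hk)).2
  -- the centraliser of `K` in `N`
  let W : Subgroup (Perm S) :=
    { carrier := {n | n ∈ N ∧ ∀ k ∈ K, k * n = n * k}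
      one_mem' := ⟨N.one_mem, fun k _ => by rw [mul_one, one_mul]⟩
      mul_mem' := by
        rintro x y ⟨hx, hx'⟩ ⟨hy, hy'⟩
        refine ⟨N.mul_mem hx hy, fun k hk => ?_⟩
        rw [← mul_assoc, hx' k hk, mul_assoc, hy' k hk, mul_assoc]
      inv_mem' := by
        rintro x ⟨hx, hx'⟩
        refine ⟨N.inv_mem hx, fun k hk => ?_⟩
        rw [mul_inv_eq_iff_eq_mul, mul_assoc, hx' k hk, inv_mul_cancel_left] }
  have hWmem : ∀ n, n ∈ W ↔ n ∈ N ∧ ∀ k ∈ K, k * n = n * k := fun n => Iff.rfl
  have hWn : ∀ g ∈ G, ∀ n ∈ W, g * n * g⁻¹ ∈ W := by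
    intro g hg n hn
    obtain ⟨m, hm, hma⟩ := htr a (g a)
    have hmg : m⁻¹ * g ∈ H := by
      refine (hHmem _).2 ⟨G.mul_mem (G.inv_mem (hNG hm)) hg, ?_⟩
      show m⁻¹ (g a) = a
      rw [← hma]
      exact m.symm_apply_apply a
    set h := m⁻¹ * g with hh
    have hgm : g = m * h := by rw [hh, mul_inv_cancel_left]
    have hhG : h ∈ G := ((hHmem h).1 hmg).1
    have h1 : h * n * h⁻¹ ∈ N := hnorm h hhG n hn.1
    have h2 : g * n * g⁻¹ = h * n * h⁻¹ := by
      rw [hgm]
      have h3 : m * (h * n * h⁻¹) = (h * n * h⁻¹) * m := hcomm m hm _ h1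
      calc m * h * n * (m * h)⁻¹ = (m * (h * n * h⁻¹)) * m⁻¹ := by group
        _ = h * n * h⁻¹ := by rw [h3, mul_inv_cancel_right]
    rw [h2]
    refine (hWmem _).2 ⟨h1, fun k hk => ?_⟩
    have h4 : h⁻¹ * k * h ∈ K := by
      have := hKn h⁻¹ (H.inv_mem hmg) k hk
      rwa [inv_inv] at this
    have h5 := hn.2 _ h4
    calc k * (h * n * h⁻¹) = h * ((h⁻¹ * k * h) * n) * h⁻¹ := by group
      _ = h * (n * (h⁻¹ * k * h)) * h⁻¹ := by rw [h5]
      _ = h * n * h⁻¹ * k := by group
  have hW : W = ⊥ := by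
    by_contra hW
    have hWt := normal_trans G hG W hW (fun n hn => hNG hn.1) hWn
    apply hK
    rw [eq_bot_iff]
    intro k hk
    rw [Subgroup.mem_bot]
    apply Equiv.ext
    intro x
    obtain ⟨w, hw, hwx⟩ := hWt a x
    have h1 := Perm.congr_fun (hw.2 k hk) a
    have h2 : k (w a) = w (k a) := h1
    rw [hKa k hk, hwx] at h2
    exact h2
  have hfixK : fixedPoints K S = {a} := by
    ext x
    rw [Set.mem_singleton_iff]
    constructor
    · intro hx
      obtain ⟨n, hn, hnx⟩ := htr a x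
      have h1 : n ∈ W := by
        refine (hWmem n).2 ⟨hn, fun k hk => ?_⟩
        have hkG : k ∈ G := ((hHmem k).1 (hKH hk)).1
        have h2 : k * n * k⁻¹ = n := by
          apply hreg2 _ (hnorm k hkG n hn) _ hn a
          show k (n (k⁻¹ a)) = n a
          have h3 : k⁻¹ a = a := by
            rw [Perm.inv_eq_iff_eq]
            exact (hKa k hk).symm
          rw [h3, hnx]
          exact hx ⟨k, hk⟩
        rw [mul_inv_eq_iff_eq_mul] at h2
        exact h2
      rw [hW, Subgroup.mem_bot] at h1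
      rw [← hnx, h1]
      rfl
    · rintro rfl ⟨k, hk⟩
      exact hKa k hk
  have hrf : Fact r.Prime := ⟨hr⟩
  have hPK : IsPGroup r K := by
    rintro ⟨k, hk⟩
    exact ⟨1, Subtype.ext (by
      show k ^ (r ^ 1) = 1
      rw [pow_one]
      exact hKe k hk)⟩
  have hmod := hPK.card_modEq_card_fixedPoints S
  have hcard1 : Nat.card (fixedPoints K S) = 1 := by
    rw [hfixK]
    simp
  rw [hcard1, h8] at hmod
  have hdvd : r ∣ 7 := by
    have := (Nat.modEq_iff_dvd' (by norm_num : 1 ≤ 8)).1 hmod.symm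
    simpa using this
  have hr7 : r = 7 := (Nat.prime_dvd_prime_iff_eq hr (by norm_num)).1 hdvd
  subst hr7
  refine ⟨K, hK, hKa, hKe, hKc, ?_⟩
  intro g hg hga k hk
  exact hKn g ((hHmem g).2 ⟨hg, hga⟩) k hk

theorem eight : S_eight := by
  classical
  intro S _ G hs hG h8
  have main : ∀ a : S, (∀ g ∈ G, g a = a → g = 1) ∨
      (∃ k : Perm S, k ^ 7 = 1 ∧ k a = a ∧ (∀ x y, x ≠ a → y ≠ a → ∃ i : ℕ, (k ^ i) x = y) ∧
        (∀ g ∈ G, g a = a → ∃ j : ℕ, g * k * g⁻¹ = k ^ j) ∧
        ∀ g ∈ G, g a = a → ∀ x y, x ≠ a → y ≠ a → x ≠ y → g x = x → g y = y → g = 1) := by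
    intro a
    rcases eight_core G hs hG h8 a with h | ⟨K, hK, hKa, hK7, hKc, hKn⟩
    · exact Or.inl h
    right
    obtain ⟨⟨k, hk⟩, hk1'⟩ := Subgroup.ne_bot_iff_exists_ne_one.1 hK
    have hk1 : k ≠ 1 := fun h => hk1' (Subtype.ext h)
    have hone : ∀ l ∈ K, ∀ x, x ≠ a → l x = x → l = 1 := by
      intro l hl x hx hlx
      exact fix_one h8 l (hK7 l hl) x a hx hlx (hKa l hl)
    have hstay : ∀ l ∈ K, ∀ x, x ≠ a → l x ≠ a := by
      intro l hl x hx hlx
      apply hx
      apply l.injective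
      rw [hlx, hKa l hl]
    have hord : ∀ l ∈ K, l ≠ 1 → orderOf l = 7 :=
      fun l hl hl1 => orderOf_eq_prime (p := 7) (hp := ⟨by norm_num⟩) (hK7 l hl) hl1
    have htrans : ∀ l ∈ K, l ≠ 1 → ∀ x y, x ≠ a → y ≠ a → ∃ i : ℕ, (l ^ i) x = y := by
      intro l hl hl1 x y hx hy
      let f : Fin 7 → {z : S // z ≠ a} := fun i => ⟨(l ^ (i : ℕ)) x, hstay _ (K.pow_mem hl _) x hx⟩
      have hinj : Function.Injective f := by
        have key : ∀ i j : Fin 7, (i : ℕ) < j → f i ≠ f j := by
          intro i j hij heq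
          have h1 : (l ^ (i : ℕ)) x = (l ^ (j : ℕ)) x := congrArg Subtype.val heq
          have h2 : (l ^ ((j : ℕ) - i)) x = x := by
            apply (l ^ (i : ℕ)).injective
            rw [← Perm.mul_apply, ← pow_add, h1]
            congr 2
            omega
          have h3 := hone _ (K.pow_mem hl _) x hx h2
          have h4 := orderOf_dvd_of_pow_eq_one h3
          rw [hord l hl hl1] at h4
          have h5 := Nat.le_of_dvd (by omega) h4
          omega
        intro i j hij
        rcases lt_trichotomy (i : ℕ) j with h | h | h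
        · exact absurd hij (key i j h)
        · exact Fin.ext h
        · exact absurd hij.symm (key j i h)
      have hcard : Nat.card {z : S // z ≠ a} = 7 := by
        have hft : Fintype S := Fintype.ofFinite S
        rw [Nat.card_eq_fintype_card, Fintype.card_subtype_compl, ← Nat.card_eq_fintype_card, h8]
        simp
      have hbij : Function.Bijective f := by
        rw [Nat.bijective_iff_injective_and_card]
        exact ⟨hinj, by rw [hcard]; simp⟩
      obtain ⟨i, hi⟩ := hbij.2 ⟨y, hy⟩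
      exact ⟨i, congrArg Subtype.val hi⟩
    refine ⟨k, hK7 k hk, hKa k hk, htrans k hk hk1, ?_, ?_⟩
    · intro g hg hga
      have h1 := hKn g hg hga k hk
      have hnt : Nontrivial S := by
        rw [← Finite.one_lt_card_iff_nontrivial, h8]
        norm_num
      obtain ⟨x, hx⟩ := exists_ne a
      obtain ⟨j, hj⟩ := htrans k hk hk1 x ((g * k * g⁻¹) x) hx (hstay _ h1 x hx)
      refine ⟨j, ?_⟩
      have h2 := hone ((k ^ j)⁻¹ * (g * k * g⁻¹)) (K.mul_mem (K.inv_mem (K.pow_mem hk j)) h1) x hx (by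
        show (k ^ j)⁻¹ ((g * k * g⁻¹) x) = x
        rw [← hj]
        exact (k ^ j).symm_apply_apply x)
      exact (inv_mul_eq_one.1 h2).symm
    · intro g hg hga x y hx hy hxy hgx hgy
      obtain ⟨i, hi⟩ := htrans k hk hk1 x y hx hy
      set l := k ^ i with hl
      have hlK : l ∈ K := K.pow_mem hk i
      have hl1 : l ≠ 1 := by
        intro h
        rw [h] at hi
        exact hxy hi
      have h1 : g * l * g⁻¹ = l := by
        have h2 := hKn g hg hga l hlK
        have h3 := hone (l⁻¹ * (g * l * g⁻¹)) (K.mul_mem (K.inv_mem hlK) h2) x hx (by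
          show l⁻¹ (g (l (g⁻¹ x))) = x
          have h4 : g⁻¹ x = x := by
            rw [Perm.inv_eq_iff_eq]
            exact hgx.symm
          rw [h4, hi, hgy, ← hi]
          exact l.symm_apply_apply x)
        exact (inv_mul_eq_one.1 h3).symm
      have h5 : Commute g l := by
        rw [mul_inv_eq_iff_eq_mul] at h1
        exact h1
      apply Equiv.ext
      intro z
      show g z = z
      by_cases hz : z = a
      · rw [hz, hga]
      · obtain ⟨j, hj⟩ := htrans l hlK hl1 x z hx hz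
        have h6 := Perm.congr_fun (h5.pow_right j).eq x
        have h7 : g ((l ^ j) x) = (l ^ j) (g x) := h6
        rw [hgx, hj] at h7
        exact h7
  constructor
  · intro g hg a b c hab hac hbc ha hb hc
    rcases main a with h | ⟨k, -, -, -, -, h⟩
    · exact h g hg ha
    · exact h g hg ha b c hab.symm hac.symm hbc hb hc
  · intro g hg h hh a b hab ga gb ha hb
    rcases main a with h1 | ⟨k, hk7, hka, htr, hn, -⟩
    · rw [h1 g hg ga, h1 h hh ha]
    · obtain ⟨j, hj⟩ := hn g hg ga
      obtain ⟨l, hl⟩ := hn h hh ha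
      have hpow : ∀ (u : Perm S) (e : ℕ), u * k * u⁻¹ = k ^ e → u b = b → ∀ i : ℕ,
          u ((k ^ i) b) = (k ^ (e * i)) b := by
        intro u e hu hub i
        have h2 : u * k ^ i * u⁻¹ = k ^ (e * i) := by
          rw [← conj_pow, hu, pow_mul]
        have h3 : u * k ^ i = k ^ (e * i) * u := by
          rw [← h2, inv_mul_cancel_right]
        have h4 : u ((k ^ i) b) = (k ^ (e * i)) (u b) := Perm.congr_fun h3 b
        rw [hub] at h4
        exact h4
      apply Equiv.ext
      intro z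
      show g (h z) = h (g z)
      by_cases hz : z = a
      · rw [hz, ha, ga, ha]
      · obtain ⟨i, rfl⟩ := htr b z hab.symm hz
        rw [hpow h l hl hb, hpow g j hj gb, hpow g j hj gb, hpow h l hl hb]
        congr 2
        ring

end Pool.Agent.Q157.SC
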