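import Mathlib
import Pool.Agent.Q6.ThreeCol.Step
import Pool.Agent.Q157.SC.Stm

/-!
# Project SC: the main step
-/

set_option autoImplicit false

namespace Pool.Agent.Q157.SC

open Equiv MulAction

theorem eq_one_of_OP {G : Type} [Group G] {g : G} (h : OP g) {k : ℕ} (hk : g ^ (2 ^ k) = 1) :
    g = 1 := by
  obtain ⟨m, hm, hgm⟩ := h
  have h1 : orderOf g ∣ m := orderOf_dvd_of_pow_eq_one hgm
  have h2 : orderOf g ∣ 2 ^ k := orderOf_dvd_of_pow_eq_one hk
  have h3 : Nat.Coprime m (2 ^ k) := (Nat.Coprime.pow_right k (Nat.coprime_two_right.2 hm))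
  have h4 : orderOf g ∣ 1 := by
    rw [← h3]
    exact Nat.dvd_gcd h1 h2
  exact orderOf_eq_one_iff.1 (Nat.dvd_one.1 h4)

theorem OP.map {G H : Type} [Group G] [Group H] (f : G →* H) {g : G} (h : OP g) : OP (f g) := by
  obtain ⟨m, hm, hgm⟩ := h
  exact ⟨m, hm, by rw [← map_pow, hgm, map_one]⟩

/-- The action on a minimal block. -/
theorem block_case (h : S_R1) (G : Type) [Group G] [Finite G] (hs : Group.IsSolvable G) (X : Type)
    [Finite X] [MulAction G X] [IsPretransitive G X] [Nontrivial X] (ω : X) :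
    ∃ (M : Subgroup G) (c : Fin 3 → X → Bool), stabilizer G ω ≤ M ∧
      (∀ i j, ∀ m ∈ M, (∀ y ∈ orbit M ω, c i (m • y) = c j y) → i = j) ∧
      (∀ i, ∀ m ∈ M, ∀ n ∈ M, OP m → OP n → (∀ y ∈ orbit M ω, c i (m • y) = c i y) →
        (∀ y ∈ orbit M ω, c i (n • y) = c i y) → ∀ y ∈ orbit M ω, m • n • y = n • m • y) := by
  classical
  have hne : stabilizer G ω ≠ ⊤ := by
    intro htop
    obtain ⟨x, hx⟩ := exists_ne ω
    obtain ⟨g, hg⟩ := exists_smul_eq G ω x
    have : g ∈ stabilizer G ω := by rw [htop]; exact Subgroup.mem_top g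
    rw [mem_stabilizer_iff, hg] at this
    exact hx this
  obtain ⟨M, hM, -⟩ := exists_covBy_le_of_lt (lt_top_iff_ne_top.2 hne)
  have hωB : ω ∈ orbit M ω := mem_orbit_self ω
  obtain ⟨m0, hm0, hm0'⟩ := SetLike.exists_of_lt hM.lt
  have hnt : Nontrivial (orbit M ω) := by
    refine ⟨⟨ω, hωB⟩, ⟨m0 • ω, ⟨⟨m0, hm0⟩, rfl⟩⟩, ?_⟩
    intro heq
    apply hm0'
    rw [mem_stabilizer_iff]
    exact (congrArg Subtype.val heq).symm
  have hprim : IsPreprimitive M (orbit M ω) := by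
    rw [← isCoatom_stabilizer_iff_preprimitive M (⟨ω, hωB⟩ : orbit M ω)]
    have hst : ∀ m : M, m ∈ stabilizer M (⟨ω, hωB⟩ : orbit M ω) ↔ (m : G) ∈ stabilizer G ω := by
      intro m
      rw [mem_stabilizer_iff, mem_stabilizer_iff]
      constructor
      · intro h1
        exact congrArg Subtype.val h1
      · intro h1
        exact Subtype.ext h1
    constructor
    · intro htop
      apply hm0'
      have h1 : (⟨m0, hm0⟩ : M) ∈ stabilizer M (⟨ω, hωB⟩ : orbit M ω) := by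
        rw [htop]; exact Subgroup.mem_top _
      exact (hst _).1 h1
    · intro K hK
      have h1 : stabilizer G ω < K.map M.subtype := by
        rw [SetLike.lt_iff_le_and_exists]
        constructor
        · intro g hg
          have hgM : g ∈ M := hM.lt.le hg
          exact ⟨⟨g, hgM⟩, hK.le ((hst ⟨g, hgM⟩).2 hg), rfl⟩
        · obtain ⟨k, hk, hk'⟩ := SetLike.exists_of_lt hK
          refine ⟨k, ⟨k, hk, rfl⟩, ?_⟩
          intro h2
          exact hk' ((hst k).2 h2)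
      have h2 : K.map M.subtype ≤ M := Subgroup.map_subtype_le K
      have h3 : K.map M.subtype = M := by
        rcases h2.lt_or_eq with h4 | h4
        · exact absurd h4 (hM.2 h1)
        · exact h4
      rw [eq_top_iff]
      intro m _
      have h5 : (m : G) ∈ K.map M.subtype := by rw [h3]; exact m.2
      obtain ⟨k, hk, hkm⟩ := h5
      have h6 : k = m := Subtype.ext hkm
      rw [← h6]
      exact hk
  -- the permutation group
  let φ : M →* Perm (orbit M ω) := toPermHom M (orbit M ω)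
  have hTprim : IsPreprimitive φ.range (orbit M ω) := by
    let f : (orbit M ω) →ₑ[(φ.rangeRestrict : M → φ.range)] (orbit M ω) :=
      { toFun := id
        map_smul' := fun m x => rfl }
    exact IsPreprimitive.of_surjective (f := f) (fun x => ⟨x, rfl⟩)
  have hsM : Group.IsSolvable M := inferInstance
  have hsT : Group.IsSolvable φ.range := Group.isSolvable_of_surjective φ.rangeRestrict_surjective
  obtain ⟨c, hc1, hc2⟩ := h (orbit M ω) φ.range hsT hTprim
  let cc : Fin 3 → X → Bool := fun i x => if hx : x ∈ orbit M ω then c i ⟨x, hx⟩ else false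
  have hcc : ∀ i (y : orbit M ω), cc i y.1 = c i y := by
    intro i y
    show (if hx : y.1 ∈ orbit M ω then c i ⟨y.1, hx⟩ else false) = c i y
    rw [dif_pos y.2]
  have hval : ∀ (m : M) (y : orbit M ω), ((φ m y : orbit M ω) : X) = (m : G) • (y : X) := fun m y => rfl
  refine ⟨M, cc, hM.lt.le, ?_, ?_⟩
  · intro i j m hm hmc
    apply hc1 i j (φ ⟨m, hm⟩) ⟨⟨m, hm⟩, rfl⟩
    intro y
    rw [← hcc, ← hcc, hval]
    exact hmc y.1 y.2
  · intro i m hm n hn hm1 hn1 hmc hnc y hy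
    have hOP : ∀ (m : G) (hm : m ∈ M), OP m → OP (φ ⟨m, hm⟩) := by
      intro m hm h1
      obtain ⟨k, hk, hmk⟩ := h1
      apply OP.map
      exact ⟨k, hk, Subtype.ext hmk⟩
    have h1 := hc2 i (φ ⟨m, hm⟩) ⟨⟨m, hm⟩, rfl⟩ (φ ⟨n, hn⟩) ⟨⟨n, hn⟩, rfl⟩ (hOP m hm hm1)
      (hOP n hn hn1)
      (fun y => by rw [← hcc, ← hcc, hval]; exact hmc y.1 y.2)
      (fun y => by rw [← hcc, ← hcc, hval]; exact hnc y.1 y.2)
    have h2 := congrArg Subtype.val (Perm.congr_fun h1 ⟨y, hy⟩)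
    exact h2

/-- The transitive case. -/
theorem trans_case (h : S_R1) (G : Type) [Group G] [Finite G] (hs : Group.IsSolvable G) (X : Type)
    [Finite X] [MulAction G X] [IsPretransitive G X] :
    ∃ c : X → Bool, ∀ a b : G, OP a → OP b → (∀ x, c (a • x) = c x) → (∀ x, c (b • x) = c x) →
      ∀ x : X, a • b • x = b • a • x := by
  classical
  rcases subsingleton_or_nontrivial X with hX | hX
  · exact ⟨fun _ => false, fun a b _ _ _ _ x => Subsingleton.elim _ _⟩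
  obtain ⟨ω⟩ : Nonempty X := inferInstance
  obtain ⟨M, c, hM, hc1, hc2⟩ := block_case h G hs X ω
  -- the top group
  let ψ : G →* Perm (G ⧸ M) := toPermHom G (G ⧸ M)
  have hsT : Group.IsSolvable ψ.range := Group.isSolvable_of_surjective ψ.rangeRestrict_surjective
  obtain ⟨δ, hδ⟩ := Q6.ThreeCol.main (Nat.card (G ⧸ M)) (G ⧸ M) le_rfl ψ.range hsT
  have hψ : ∀ (a : G) (σ : G ⧸ M), ψ a σ = a • σ := fun _ _ => rfl
  -- the map to the blocks
  have hch : ∀ x : X, ∃ g : G, g • ω = x := fun x => exists_smul_eq G ω x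
  choose r hr using hch
  let π : X → G ⧸ M := fun x => (r x : G ⧸ M)
  have hπ : ∀ g : G, π (g • ω) = (g : G ⧸ M) := by
    intro g
    show ((r (g • ω) : G) : G ⧸ M) = (g : G ⧸ M)
    rw [QuotientGroup.eq]
    apply hM
    rw [mem_stabilizer_iff, mul_smul, inv_smul_eq_iff]
    exact (hr _).symm
  have hπ2 : ∀ (a : G) (x : X), π (a • x) = a • π x := by
    intro a x
    obtain ⟨g, rfl⟩ := exists_smul_eq G ω x
    rw [← mul_smul, hπ, hπ]
    rfl
  let s : G ⧸ M → G := fun σ => Quotient.out σ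
  have hsσ : ∀ σ, ((s σ : G) : G ⧸ M) = σ := fun σ => QuotientGroup.out_eq' σ
  have hmem : ∀ x, (s (π x))⁻¹ • x ∈ orbit M ω := by
    intro x
    obtain ⟨g, rfl⟩ := exists_smul_eq G ω x
    have h1 : (s (π (g • ω)))⁻¹ * g ∈ M := by
      rw [← QuotientGroup.eq, hsσ, hπ]
    refine ⟨⟨_, h1⟩, ?_⟩
    show ((s (π (g • ω)))⁻¹ * g) • ω = _
    rw [mul_smul]
  have hπs : ∀ (σ : G ⧸ M) (y : X), y ∈ orbit M ω → π (s σ • y) = σ := by
    rintro σ y ⟨⟨m, hm⟩, rfl⟩
    show π (s σ • m • ω) = σ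
    rw [← mul_smul, hπ]
    conv_rhs => rw [← hsσ σ]
    rw [eq_comm, QuotientGroup.eq, inv_mul_cancel_left]
    exact hm
  let γ : X → Bool := fun x => c (δ (π x)) ((s (π x))⁻¹ • x)
  have hMm : ∀ (a : G) (σ : G ⧸ M), (s (a • σ))⁻¹ * a * s σ ∈ M := by
    intro a σ
    rw [mul_assoc, ← QuotientGroup.eq, hsσ]
    conv_lhs => rw [← hsσ σ]
    rfl
  have hkey : ∀ a : G, (∀ x, γ (a • x) = γ x) → ∀ (σ : G ⧸ M), ∀ y ∈ orbit M ω,
      c (δ (a • σ)) (((s (a • σ))⁻¹ * a * s σ) • y) = c (δ σ) y := by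
    intro a ha σ y hy
    have h1 := ha (s σ • y)
    have h2 : γ (s σ • y) = c (δ σ) y := by
      show c (δ (π (s σ • y))) ((s (π (s σ • y)))⁻¹ • s σ • y) = _
      rw [hπs σ y hy, inv_smul_smul]
    have h3 : γ (a • s σ • y) = c (δ (a • σ)) (((s (a • σ))⁻¹ * a * s σ) • y) := by
      show c (δ (π (a • s σ • y))) ((s (π (a • s σ • y)))⁻¹ • a • s σ • y) = _
      rw [hπ2, hπs σ y hy, mul_smul, mul_smul]
    rw [← h3, h1, h2]
  have hfix : ∀ a : G, OP a → (∀ x, γ (a • x) = γ x) → ∀ σ : G ⧸ M, a • σ = σ := by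
    intro a ha haγ σ
    have h1 : ∀ σ, δ (ψ a σ) = δ σ := by
      intro σ
      rw [hψ]
      exact hc1 _ _ _ (hMm a σ) (hkey a haγ σ)
    obtain ⟨k, hk⟩ := hδ (ψ a) ⟨a, rfl⟩ h1
    have h2 := eq_one_of_OP (OP.map ψ ha) hk
    rw [← hψ, h2]
    rfl
  refine ⟨γ, ?_⟩
  intro a b ha hb haγ hbγ x
  set σ := π x with hσ
  have ha1 := hfix a ha haγ σ
  have hb1 := hfix b hb hbγ σ
  have hconj : ∀ g : G, OP g → OP ((s σ)⁻¹ * g * s σ) := by
    rintro g ⟨m, hm, hgm⟩
    refine ⟨m, hm, ?_⟩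
    have h1 : ((s σ)⁻¹ * g * s σ) ^ m = (s σ)⁻¹ * g ^ m * s σ := by
      have := conj_pow (i := m) (a := (s σ)⁻¹) (b := g)
      rwa [inv_inv] at this
    rw [h1, hgm, mul_one, inv_mul_cancel]
  have hy := hmem x
  rw [← hσ] at hy
  have hMa : (s σ)⁻¹ * a * s σ ∈ M := by
    have := hMm a σ
    rwa [ha1] at this
  have hMb : (s σ)⁻¹ * b * s σ ∈ M := by
    have := hMm b σ
    rwa [hb1] at this
  have hka : ∀ y ∈ orbit M ω, c (δ σ) (((s σ)⁻¹ * a * s σ) • y) = c (δ σ) y := by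
    intro y hy
    have := hkey a haγ σ y hy
    rwa [ha1] at this
  have hkb : ∀ y ∈ orbit M ω, c (δ σ) (((s σ)⁻¹ * b * s σ) • y) = c (δ σ) y := by
    intro y hy
    have := hkey b hbγ σ y hy
    rwa [hb1] at this
  have hfin := hc2 (δ σ) _ hMa _ hMb (hconj a ha) (hconj b hb) hka hkb _ hy
  simp only [← mul_smul] at hfin ⊢
  have e1 : (s σ)⁻¹ * a * s σ * ((s σ)⁻¹ * b * s σ) * (s σ)⁻¹ = (s σ)⁻¹ * (a * b) := by group
  have e2 : (s σ)⁻¹ * b * s σ * ((s σ)⁻¹ * a * s σ) * (s σ)⁻¹ = (s σ)⁻¹ * (b * a) := by group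
  have hfin2 : ((s σ)⁻¹ * (a * b)) • x = ((s σ)⁻¹ * (b * a)) • x := by
    rw [← e1, ← e2]
    simpa only [mul_assoc] using hfin
  rw [mul_smul, mul_smul (s σ)⁻¹] at hfin2
  exact smul_left_cancel _ hfin2

theorem mainthm (h : S_R1) : S_main := by
  classical
  intro Ω _ G hs
  have htr : ∀ q : orbitRel.Quotient G Ω, ∃ c : orbit G (Quotient.out q) → Bool,
      ∀ a b : G, OP a → OP b → (∀ x, c (a • x) = c x) → (∀ x, c (b • x) = c x) →
        ∀ x : orbit G (Quotient.out q), a • b • x = b • a • x := by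
    intro q
    exact trans_case h G hs _
  choose c hc using htr
  have hmem : ∀ x : Ω, x ∈ orbit G (Quotient.out (Quotient.mk'' x : orbitRel.Quotient G Ω)) := by
    intro x
    have h1 : (orbitRel G Ω) (Quotient.out (Quotient.mk'' x : orbitRel.Quotient G Ω)) x :=
      Quotient.exact' (Quotient.out_eq' _)
    exact (orbitRel_apply.1 ((orbitRel G Ω).symm h1))
  let γ : Ω → Bool := fun x => c (Quotient.mk'' x) ⟨x, hmem x⟩
  have hγ : ∀ (q : orbitRel.Quotient G Ω) (x : orbit G (Quotient.out q)), γ x.1 = c q x := by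
    rintro q ⟨x, hx⟩
    have h1 : (Quotient.mk'' x : orbitRel.Quotient G Ω) = q := by
      rw [← Quotient.out_eq' q]
      exact Quotient.sound' hx
    subst h1
    rfl
  refine ⟨γ, ?_⟩
  intro a ha b hb hOa hOb haγ hbγ
  have hO : ∀ (g : Perm Ω) (hg : g ∈ G), OP g → OP (⟨g, hg⟩ : G) := by
    rintro g hg ⟨m, hm, hgm⟩
    exact ⟨m, hm, Subtype.ext hgm⟩
  apply Equiv.ext
  intro x
  have h1 := hc (Quotient.mk'' x) ⟨a, ha⟩ ⟨b, hb⟩ (hO a ha hOa) (hO b hb hOb)
    (fun y => by rw [← hγ, ← hγ]; exact haγ y.1) (fun y => by rw [← hγ, ← hγ]; exact hbγ y.1)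
    ⟨x, hmem x⟩
  exact congrArg Subtype.val h1

end Pool.Agent.Q157.SC
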