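import Mathlib
import Pool.Agent.Q157.SC.Stm
import Pool.Agent.Q157.SC.Main
import Pool.Agent.Q157.SC.Prim
import Pool.Agent.Q157.SC.Eight
import Pool.Agent.Q157.SC.ROne
import Pool.Agent.Q157.SC.Fix
import Pool.Agent.Q157.SC.Span
import Pool.Agent.Q157.SC.Bas
import Pool.Agent.Q157.SC.CSeven
import Pool.Agent.Q157.SC.AffAll
import Pool.Agent.Q153.SC.gen
import Pool.Agent.Q130.SC.B5
import Pool.Agent.Q130.SC.C8
import Pool.Agent.Q25.SC.B3

/-!
# Project SC: the theorem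
-/

set_option autoImplicit false

namespace Pool.Agent.Q157.SC

theorem a_gen : S_gen := Pool.Agent.Q153.SC.gen

theorem a_bas : S_bas := bas a_gen

theorem a_fix : S_fix := fix

theorem a_rig : S_rig := rig a_fix

theorem a_ind3 : S_ind3 := ind3 a_bas a_rig sp3 siz

theorem a_ind2 : S_ind2 := ind2 a_bas a_rig plr sp2 siz

theorem a_b5 : S_b5 := Pool.Agent.Q130.SC.b5 a_gen a_bas

theorem a_b3 : S_b3 := Pool.Agent.Q25.SC.b3 a_gen a_bas

theorem a_b2 : S_b2 := Pool.Agent.Q25.SC.b2 a_bas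

theorem a_c7 : S_c7 := c7g a_gen

theorem a_c8 : S_c8 := Pool.Agent.Q130.SC8.c8g a_gen a_bas

theorem a_b4 : S_b4 := b4 a_bas a_c7 a_c8

theorem a_aff : S_aff := aff a_bas a_ind3 a_ind2 a_b5 a_b3 a_b2 a_b4

theorem a_R1 : S_R1 := R1 a_gen a_bas prim a_aff eight

theorem main_all : S_main := mainthm a_R1

end Pool.Agent.Q157.SC
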